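import Mathlib

set_option autoImplicit false

namespace Pool.Agent.Helper429

open scoped commutatorElement

/-- The endomorphism of the free group on `ℕ` killing the generator `j`. -/
def kill (j : ℕ) : FreeGroup ℕ →* FreeGroup ℕ :=
  FreeGroup.lift (fun i => if i = j then 1 else FreeGroup.of i)

@[simp] lemma kill_of_self (j : ℕ) : kill j (FreeGroup.of j) = 1 := by simp [kill]

lemma kill_of_ne {i j : ℕ} (h : i ≠ j) : kill j (FreeGroup.of i) = FreeGroup.of i := by simp [kill, h]

/-- `X T g`: the word `g` is a product of nested commutators in which every generator with index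
in `T` occurs. -/
inductive X : Finset ℕ → FreeGroup ℕ → Prop
  | triv (g : FreeGroup ℕ) : X ∅ g
  | gen (i : ℕ) : X {i} (FreeGroup.of i)
  | one (T : Finset ℕ) : X T 1
  | mul {T : Finset ℕ} {a b : FreeGroup ℕ} : X T a → X T b → X T (a * b)
  | inv {T : Finset ℕ} {a : FreeGroup ℕ} : X T a → X T a⁻¹
  | comm {S T : Finset ℕ} {a b : FreeGroup ℕ} : X S a → X T b → X (S ∪ T) ⁅a, b⁆

lemma X.conj {T : Finset ℕ} {a : FreeGroup ℕ} (h : X T a) (g : FreeGroup ℕ) :
    X T (g * a * g⁻¹) := by
  have h1 : X (∅ ∪ T) ⁅g, a⁆ := X.comm (X.triv g) h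
  rw [Finset.empty_union] at h1
  have h2 : g * a * g⁻¹ = ⁅g, a⁆ * a := by rw [commutatorElement_def]; group
  rw [h2]
  exact X.mul h1 h

/-- `X T` as a subgroup. -/
def XS (T : Finset ℕ) : Subgroup (FreeGroup ℕ) where
  carrier := {g | X T g}
  mul_mem' := X.mul
  one_mem' := X.one T
  inv_mem' := X.inv

instance (T : Finset ℕ) : (XS T).Normal where
  conj_mem _ h g := X.conj h g

lemma X.kill {T : Finset ℕ} {a : FreeGroup ℕ} (h : X T a) (j : ℕ) : X T (kill j a) := by
  induction h with
  | triv g => exact X.triv _
  | gen i =>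
    by_cases hij : i = j
    · subst hij; rw [kill_of_self]; exact X.one _
    · rw [kill_of_ne hij]; exact X.gen i
  | one T => rw [map_one]; exact X.one T
  | mul _ _ iha ihb => rw [map_mul]; exact X.mul iha ihb
  | inv _ iha => rw [map_inv]; exact X.inv iha
  | comm _ _ iha ihb => rw [map_commutatorElement]; exact X.comm iha ihb

lemma comm_simplify {G : Type*} [Group G] {a b c d : G} (h1 : Commute c b) (h2 : Commute c d)
    (h3 : Commute d a) : ⁅a * c, b * d⁆ = ⁅a, b⁆ := by
  simp only [commutatorElement_def, mul_inv_rev]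
  have e1 : c * (b * d) = b * d * c := by
    rw [← mul_assoc, h1.eq, mul_assoc, h2.eq, mul_assoc]
  calc a * c * (b * d) * (c⁻¹ * a⁻¹) * (d⁻¹ * b⁻¹)
      = a * (c * (b * d)) * (c⁻¹ * a⁻¹) * (d⁻¹ * b⁻¹) := by group
    _ = a * b * (d * a⁻¹) * d⁻¹ * b⁻¹ := by rw [e1]; group
    _ = a * b * (a⁻¹ * d) * d⁻¹ * b⁻¹ := by rw [h3.inv_right.eq]
    _ = a * b * a⁻¹ * b⁻¹ := by group

lemma commute_mk {G : Type*} [Group G] (N : Subgroup G) [N.Normal] {a b : G} (h : ⁅a, b⁆ ∈ N) :
    Commute (QuotientGroup.mk' N a) (QuotientGroup.mk' N b) := by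
  rw [← commutatorElement_eq_one_iff_commute, ← map_commutatorElement]
  exact (QuotientGroup.eq_one_iff _).2 h

lemma X.step {T : Finset ℕ} {g : FreeGroup ℕ} (h : X T g) (j : ℕ) :
    X (insert j T) ((Helper429.kill j g)⁻¹ * g) := by
  induction h with
  | triv g =>
    induction g using FreeGroup.induction_on with
    | C1 => simp only [map_one, inv_one, one_mul]; exact X.one _
    | of i =>
      by_cases hij : i = j
      · subst hij
        rw [kill_of_self]
        simpa using X.gen i
      · rw [kill_of_ne hij, inv_mul_cancel]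
        exact X.one _
    | inv_of i ih =>
      rw [map_inv, inv_inv]
      have h1 := X.conj (X.inv ih) (Helper429.kill j (FreeGroup.of i))
      have h2 : Helper429.kill j (FreeGroup.of i) * ((Helper429.kill j (FreeGroup.of i))⁻¹ * FreeGroup.of i)⁻¹ *
          (Helper429.kill j (FreeGroup.of i))⁻¹ =
          Helper429.kill j (FreeGroup.of i) * (FreeGroup.of i)⁻¹ := by group
      rwa [h2] at h1
    | mul a b iha ihb =>
      have h1 := X.conj iha (Helper429.kill j b)⁻¹
      have h2 := X.mul h1 ihb
      convert h2 using 1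
      rw [map_mul]; group
  | gen i =>
    by_cases hij : i = j
    · subst hij
      rw [kill_of_self]
      simpa using X.gen i
    · rw [kill_of_ne hij, inv_mul_cancel]
      exact X.one _
  | one T => simp only [map_one, inv_one, one_mul]; exact X.one _
  | @mul T a b _ _ iha ihb =>
    have h1 := X.conj iha (Helper429.kill j b)⁻¹
    have h2 := X.mul h1 ihb
    convert h2 using 1
    rw [map_mul]; group
  | @inv T a _ iha =>
    have h1 := X.conj (X.inv iha) (Helper429.kill j a)
    convert h1 using 1
    rw [map_inv]; group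
  | @comm S T a b ha hb iha ihb =>
    set a' := Helper429.kill j a with ha'
    set b' := Helper429.kill j b with hb'
    have hXa' : X S a' := ha.kill j
    have hXb' : X T b' := hb.kill j
    obtain ⟨α, hα⟩ : ∃ α, α = a'⁻¹ * a := ⟨_, rfl⟩
    obtain ⟨β, hβ⟩ : ∃ β, β = b'⁻¹ * b := ⟨_, rfl⟩
    rw [← hα] at iha
    rw [← hβ] at ihb
    have ea : a = a' * α := by rw [hα]; group
    have eb : b = b' * β := by rw [hβ]; group
    rw [map_commutatorElement]
    rw [← ha', ← hb']
    have key : QuotientGroup.mk' (XS (insert j (S ∪ T))) ⁅a, b⁆ =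
        QuotientGroup.mk' (XS (insert j (S ∪ T))) ⁅a', b'⁆ := by
      have e1 : QuotientGroup.mk' (XS (insert j (S ∪ T))) ⁅a, b⁆ =
          QuotientGroup.mk' (XS (insert j (S ∪ T))) ⁅a' * α, b' * β⁆ := by rw [← ea, ← eb]
      rw [e1, map_commutatorElement, map_commutatorElement, map_mul, map_mul]
      apply comm_simplify
      · apply commute_mk
        have := X.comm iha hXb'
        rw [Finset.insert_union] at this
        exact this
      · apply commute_mk
        have := X.comm iha ihb
        rw [Finset.insert_union, Finset.union_insert, Finset.insert_idem] at this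
        exact this
      · apply Commute.symm
        apply commute_mk
        have := X.comm hXa' ihb
        rw [Finset.union_insert] at this
        exact this
    have h2 : (⁅a', b'⁆)⁻¹ * ⁅a, b⁆ ∈ XS (insert j (S ∪ T)) := by
      exact QuotientGroup.eq.1 key.symm
    exact h2

/-- A word which becomes trivial when any one of the generators indexed by `T` is killed is a
product of nested commutators involving all these generators. -/
lemma X.of_kill {r : FreeGroup ℕ} (T : Finset ℕ) (h : ∀ j ∈ T, Helper429.kill j r = 1) : X T r := by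
  induction T using Finset.induction_on with
  | empty => exact X.triv r
  | insert j T _ ih =>
    have h1 := (ih (fun i hi => h i (Finset.mem_insert_of_mem hi))).step j
    rw [h j (Finset.mem_insert_self j T)] at h1
    simpa using h1

end Pool.Agent.Helper429
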