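import Mathlib
import Pool.Agent.Helper429.UT

set_option autoImplicit false

namespace Pool.Agent.Helper429

open scoped commutatorElement

lemma X.mem_NN {T : Finset ℕ} {g : FreeGroup ℕ} (h : X T g) (f : ℕ → U) (hf : ∀ x, Uni (f x)) :
    ((FreeGroup.lift f g : U) : Mat) - 1 ∈ NN T.card := by
  induction h with
  | triv g => exact NN_anti (by simp) (Uni.lift hf g).1
  | gen i => rw [FreeGroup.lift_apply_of]; simpa using (hf i).1
  | one T => rw [map_one]; simp
  | mul _ _ iha ihb => rw [map_mul]; exact mul_mem_NN iha ihb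
  | @inv T a _ iha => rw [map_inv]; exact inv_mem_NN (Uni.lift hf a) iha
  | @comm S T a b _ _ iha ihb =>
    rw [map_commutatorElement]
    exact NN_anti (Finset.card_union_le S T) (comm_mem_NN (Uni.lift hf a) (Uni.lift hf b) iha ihb)

lemma X.rep {T : Finset ℕ} {g : FreeGroup ℕ} (h : X T g) (hT : T.Nonempty) :
    ∃ E, Rep T.card g E ∧ ∀ q ∈ E, q.2.Nodup ∧ q.2.toFinset = T := by
  induction h with
  | triv g => simp at hT
  | gen i => exact ⟨[(1, [i])], by simpa using Rep.gen i, by simp⟩
  | one T => exact ⟨[], Rep.one _, by simp⟩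
  | mul _ _ iha ihb =>
    obtain ⟨E, h1, h2⟩ := iha hT
    obtain ⟨E', h1', h2'⟩ := ihb hT
    refine ⟨E ++ E', Rep.mul (Finset.card_pos.2 hT) h1 h1', ?_⟩
    intro q hq
    rcases List.mem_append.1 hq with h | h
    · exact h2 q h
    · exact h2' q h
  | inv _ iha =>
    obtain ⟨E, h1, h2⟩ := iha hT
    refine ⟨pneg E, Rep.inv h1, ?_⟩
    intro q hq
    obtain ⟨q', hq', rfl⟩ := List.mem_map.1 hq
    exact h2 q' hq'
  | @comm S T a b ha hb iha ihb =>
    by_cases hS : S.Nonempty
    · by_cases hT' : T.Nonempty
      · by_cases hd : Disjoint S T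
        · obtain ⟨E, h1, h2⟩ := iha hS
          obtain ⟨E', h1', h2'⟩ := ihb hT'
          refine ⟨pmul E E' ++ pneg (pmul E' E), ?_, ?_⟩
          · rw [Finset.card_union_of_disjoint hd]; exact Rep.comm h1 h1'
          · intro q hq
            rcases List.mem_append.1 hq with h | h
            · obtain ⟨q1, h3, h4⟩ := List.mem_flatMap.1 h
              obtain ⟨q2, h5, rfl⟩ := List.mem_map.1 h4
              have a1 := h2 q1 h3
              have a2 := h2' q2 h5
              constructor
              · rw [List.nodup_append']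
                refine ⟨a1.1, a2.1, ?_⟩
                rw [← List.disjoint_toFinset_iff_disjoint, a1.2, a2.2]
                exact hd
              · simp [List.toFinset_append, a1.2, a2.2]
            · obtain ⟨q0, h0, rfl⟩ := List.mem_map.1 h
              obtain ⟨q1, h3, h4⟩ := List.mem_flatMap.1 h0
              obtain ⟨q2, h5, rfl⟩ := List.mem_map.1 h4
              have a1 := h2' q1 h3
              have a2 := h2 q2 h5
              constructor
              · rw [List.nodup_append']
                refine ⟨a1.1, a2.1, ?_⟩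
                rw [← List.disjoint_toFinset_iff_disjoint, a1.2, a2.2]
                exact hd.symm
              · simp [List.toFinset_append, a1.2, a2.2, Finset.union_comm]
        · refine ⟨[], Rep.zero_of ?_, by simp⟩
          intro f hf
          have hlt : (S ∪ T).card + 1 ≤ S.card + T.card := by
            have := Finset.card_union_add_card_inter S T
            have h3 : 0 < (S ∩ T).card := by
              rw [Finset.card_pos]
              rwa [Finset.disjoint_iff_inter_eq_empty, ← Finset.not_nonempty_iff_eq_empty,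
                not_not] at hd
            omega
          rw [map_commutatorElement]
          exact NN_anti hlt (comm_mem_NN (Uni.lift hf a) (Uni.lift hf b)
            (ha.mem_NN f hf) (hb.mem_NN f hf))
      · rw [Finset.not_nonempty_iff_eq_empty] at hT'
        subst hT'
        refine ⟨[], Rep.zero_of ?_, by simp⟩
        intro f hf
        rw [map_commutatorElement, Finset.union_empty]
        exact comm_mem_NN (Uni.lift hf a) (Uni.lift hf b)
            (ha.mem_NN f hf) (Uni.lift hf b).1
    · rw [Finset.not_nonempty_iff_eq_empty] at hS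
      subst hS
      refine ⟨[], Rep.zero_of ?_, by simp⟩
      intro f hf
      rw [map_commutatorElement, Finset.empty_union, add_comm]
      exact comm_mem_NN (Uni.lift hf a) (Uni.lift hf b)
            (Uni.lift hf a).1 (hb.mem_NN f hf)

/-- linear parts -/
abbrev V6 : Type := Fin 6 → ZMod 3

/-- The group: a unitriangular matrix over `CC` together with a vector `v` such that the `j`-th
superdiagonal entry is the function `τ ↦ v (τ j)`. -/
def GG : Subgroup (U × Multiplicative V6) where
  carrier := {p | Uni p.1 ∧ ∀ j : Fin 6, ent ((p.1 : Mat) - 1) j (j + 1) =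
    fun τ => (Multiplicative.toAdd p.2) (τ j)}
  one_mem' := by
    refine ⟨Uni.one, fun j => ?_⟩
    simp [ent_zero]; rfl
  mul_mem' := by
    rintro ⟨a, v⟩ ⟨b, w⟩ ⟨ha, ha'⟩ ⟨hb, hb'⟩
    refine ⟨ha.mul hb, fun j => ?_⟩
    simp only [Prod.mk_mul_mk] at *
    rw [unit_mul_sub, ent_add, ent_add, ha', hb', ent_lead_zero (k := 1) (NN_mul ha.1 hb.1),
      add_zero]
    rfl
  inv_mem' := by
    rintro ⟨a, v⟩ ⟨ha, ha'⟩
    refine ⟨ha.inv, fun j => ?_⟩
    simp only [Prod.inv_mk] at *
    rw [unit_inv_sub, ent_sub, ent_neg, ha', ent_lead_zero (k := 1) (NN_mul ha.1 ha.2), sub_zero]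
    rfl

/-- strictly upper triangular matrix with given linear part -/
def Yv (v : V6) : Mat := fun i j =>
  if h : (i : ℕ) < 6 then (if (j : ℕ) = i + 1 then fun τ => v (τ ⟨i, h⟩) else 0) else 0

lemma Yv_mem (v : V6) : Yv v ∈ NN 1 := by
  intro i j hij
  unfold ent
  split_ifs with h
  · simp only [Yv]
    split_ifs <;> first | rfl | omega
  · rfl

lemma ent_Yv (v : V6) (j : Fin 6) : ent (Yv v) j (j + 1) = fun τ => v (τ j) := by
  rw [ent_of_lt _ (by omega) (by omega)]
  simp [Yv]

lemma pow_mem_NN {A : Mat} (hA : A ∈ NN 1) (k : ℕ) : A ^ (k + 1) ∈ NN (k + 1) := by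
  induction k with
  | zero => simpa using hA
  | succ k ih => rw [pow_succ]; exact NN_mul ih hA

/-- section of the linear part map -/
def sec (v : V6) : U where
  val := 1 + Yv v
  inv := ∑ k ∈ Finset.range 7, (-Yv v) ^ k
  val_inv := by
    have h : (-Yv v) ^ 7 = 0 := NN_seven (k := 7) le_rfl (pow_mem_NN ((NN 1).neg_mem (Yv_mem v)) 6)
    have := mul_neg_geom_sum (-Yv v) 7
    rw [h, sub_zero, sub_neg_eq_add] at this
    exact this
  inv_val := by
    have h : (-Yv v) ^ 7 = 0 := NN_seven (k := 7) le_rfl (pow_mem_NN ((NN 1).neg_mem (Yv_mem v)) 6)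
    have := geom_sum_mul_neg (-Yv v) 7
    rw [h, sub_zero, sub_neg_eq_add] at this
    exact this

lemma sec_uni (v : V6) : Uni (sec v) := by
  constructor
  · have : ((sec v : U) : Mat) - 1 = Yv v := by simp [sec]
    rw [this]; exact Yv_mem v
  · have : (((sec v)⁻¹ : U) : Mat) = ∑ k ∈ Finset.range 7, (-Yv v) ^ k := rfl
    rw [this, Finset.sum_range_succ', pow_zero, add_sub_cancel_right]
    apply AddSubgroup.sum_mem
    intro k _
    exact NN_anti (by omega) (pow_mem_NN ((NN 1).neg_mem (Yv_mem v)) k)

def secG (v : V6) : GG := ⟨(sec v, Multiplicative.ofAdd v), by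
  refine ⟨sec_uni v, fun j => ?_⟩
  have : ((sec v : U) : Mat) - 1 = Yv v := by simp [sec]
  rw [this, ent_Yv]; rfl⟩

end Pool.Agent.Helper429
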