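import Mathlib
import Pool.Agent.Helper429.Val

set_option autoImplicit false

namespace Pool.Agent.Helper429

open scoped commutatorElement

/-- inversion sign of a list -/
def sgL : List ℕ → ℤ
  | [] => 1
  | x :: l => (l.map (fun y => if x < y then (1 : ℤ) else -1)).prod * sgL l

/-- base three code of a list -/
def code (l : List ℕ) : ℕ := l.foldl (fun a x => 3 * a + x) 0

/-- the pattern table -/
def hC (n : ℕ) : ℤ :=
  if n = code [2,0,1,1,0,2] then 1 else
  if n = code [1,2,0,1,2,0] then -1 else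
  if n = code [2,1,0,0,1,2] then 1 else
  if n = code [2,1,1,0,0,2] then -1 else
  if n = code [0,1,1,0,2,2] then -1 else
  if n = code [2,2,1,0,0,1] then -1 else
  if n = code [1,1,2,2,0,0] then -1 else 0

def hN (l : List ℕ) : ℤ := hC (code l)

/-- extension of a permutation of six letters to the natural numbers -/
def tl (τ : Equiv.Perm (Fin 6)) (x : ℕ) : ℕ := if h : x < 6 then (τ ⟨x, h⟩ : ℕ) else x

lemma tl_fin (τ : Equiv.Perm (Fin 6)) (x : Fin 6) : tl τ x = τ x := by simp [tl]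

lemma tl_mul (τ ω : Equiv.Perm (Fin 6)) (x : ℕ) : tl (τ * ω) x = tl τ (tl ω x) := by
  unfold tl
  by_cases h : x < 6
  · simp [h]
  · simp [h]

/-- the pattern of a permutation -/
def et (τ : Equiv.Perm (Fin 6)) (x : ℕ) : ℕ := tl τ x / 2

abbrev sg (τ : Equiv.Perm (Fin 6)) : ZMod 3 := ((Equiv.Perm.sign τ : ℤ) : ZMod 3)

lemma sg_mul (τ ω : Equiv.Perm (Fin 6)) : sg (τ * ω) = sg τ * sg ω := by
  simp [sg, Equiv.Perm.sign_mul]

/-- The functional on the corner entry. -/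
def Phi (a : CC) : ZMod 3 :=
  ∑ τ : Equiv.Perm (Fin 6), sg τ * ((hN (List.ofFn fun j : Fin 6 => et τ j) : ℤ) : ZMod 3) * a τ

lemma Phi_add (a b : CC) : Phi (a + b) = Phi a + Phi b := by
  simp [Phi, mul_add, Finset.sum_add_distrib]

lemma Phi_neg (a : CC) : Phi (-a) = - Phi a := by
  simp [Phi]

lemma Phi_zero : Phi 0 = 0 := by simp [Phi]

lemma Phi_zsmul (n : ℤ) (a : CC) : Phi (n • a) = n • Phi a := by
  unfold Phi
  rw [Finset.smul_sum]
  apply Finset.sum_congr rfl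
  intro τ _
  simp only [Pi.smul_apply, zsmul_eq_mul]
  ring

lemma sgL_ofFn (π : Equiv.Perm (Fin 6)) :
    sgL (List.ofFn fun j : Fin 6 => (π j : ℕ)) = (Equiv.Perm.sign π : ℤ) := by
  rw [Equiv.Perm.sign_eq_prod_prod_Iio, Fin.prod_univ_six]
  have h0 : Finset.Iio (0 : Fin 6) = ∅ := by decide
  have h1 : Finset.Iio (1 : Fin 6) = {0} := by decide
  have h2 : Finset.Iio (2 : Fin 6) = {0, 1} := by decide
  have h3 : Finset.Iio (3 : Fin 6) = {0, 1, 2} := by decide
  have h4 : Finset.Iio (4 : Fin 6) = {0, 1, 2, 3} := by decide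
  have h5 : Finset.Iio (5 : Fin 6) = {0, 1, 2, 3, 4} := by decide
  rw [h0, h1, h2, h3, h4, h5]
  have key : ∀ i j : Fin 6, (((if π i < π j then 1 else -1 : ℤˣ)) : ℤ) =
      if (π i : ℕ) < (π j : ℕ) then 1 else -1 := by
    intro i j
    by_cases h : π i < π j
    · have : (π i : ℕ) < (π j : ℕ) := h
      simp [h, this]
    · have : ¬ (π i : ℕ) < (π j : ℕ) := h
      simp [h, this]
  simp only [List.ofFn_succ, List.ofFn_zero, sgL, List.map_cons, List.map_nil, List.prod_cons,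
    List.prod_nil]
  rw [Finset.prod_empty, Finset.prod_singleton, Finset.prod_pair (by decide)]
  rw [Finset.prod_insert (by decide), Finset.prod_pair (by decide)]
  rw [Finset.prod_insert (by decide), Finset.prod_insert (by decide), Finset.prod_pair (by decide)]
  rw [Finset.prod_insert (by decide), Finset.prod_insert (by decide),
    Finset.prod_insert (by decide), Finset.prod_pair (by decide)]
  push_cast
  simp only [key]
  have e1 : (Fin.succ 0 : Fin 6) = 1 := rfl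
  have e2 : (Fin.succ (Fin.succ 0) : Fin 6) = 2 := rfl
  have e3 : (Fin.succ (Fin.succ (Fin.succ 0)) : Fin 6) = 3 := rfl
  have e4 : (Fin.succ (Fin.succ (Fin.succ (Fin.succ 0))) : Fin 6) = 4 := rfl
  have e5 : (Fin.succ (Fin.succ (Fin.succ (Fin.succ (Fin.succ 0)))) : Fin 6) = 5 := rfl
  simp only [e1, e2, e3, e4, e5, mul_one, one_mul]
  ring

/-- reindexing -/
lemma reindex (h : List ℕ → ℤ) (v : ℕ → V6) (π : Equiv.Perm (Fin 6)) :
    (∑ τ : Equiv.Perm (Fin 6), sg τ * ((h (List.ofFn fun j : Fin 6 => et τ j) : ℤ) : ZMod 3) *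
      ∏ j : Fin 6, v (π j) (τ j)) =
    ∑ τ : Equiv.Perm (Fin 6), sg τ * (∏ x : Fin 6, v x (τ x)) *
      (sg π * ((h (List.ofFn fun j : Fin 6 => et τ (π j)) : ℤ) : ZMod 3)) := by
  rw [← Equiv.sum_comp (Equiv.mulRight π)]
  apply Finset.sum_congr rfl
  intro τ _
  simp only [Equiv.coe_mulRight, sg_mul]
  have h1 : (fun j : Fin 6 => et (τ * π) j) = fun j : Fin 6 => et τ (π j) := by
    funext j; simp [et, tl_mul, tl_fin]
  rw [h1]
  have h2 : ∏ j : Fin 6, v (π j) ((τ * π) j) = ∏ x : Fin 6, v x (τ x) := by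
    rw [← Equiv.prod_comp π (fun x : Fin 6 => v x (τ x))]
    rfl
  rw [h2]
  ring

lemma mon_ofFn (s : ℕ → ℕ → CC) (v : ℕ → V6) (hs : ∀ x, ∀ j : Fin 6, s x j = fun τ => v x (τ j))
    (g : Fin 6 → ℕ) : mon s 0 (List.ofFn g) = fun τ => ∏ j : Fin 6, v (g j) (τ j) := by
  funext τ
  simp only [List.ofFn_succ, List.ofFn_zero, mon, Fin.prod_univ_six]
  have e0 : s (g 0) 0 = fun τ => v (g 0) (τ 0) := hs _ 0
  have e1 : s (g (Fin.succ 0)) (0 + 1) = fun τ => v (g 1) (τ 1) := hs _ 1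
  have e2 : s (g (Fin.succ (Fin.succ 0))) (0 + 1 + 1) = fun τ => v (g 2) (τ 2) := hs _ 2
  have e3 : s (g (Fin.succ (Fin.succ (Fin.succ 0)))) (0 + 1 + 1 + 1) = fun τ => v (g 3) (τ 3) :=
    hs _ 3
  have e4 : s (g (Fin.succ (Fin.succ (Fin.succ (Fin.succ 0))))) (0 + 1 + 1 + 1 + 1) =
      fun τ => v (g 4) (τ 4) := hs _ 4
  have e5 : s (g (Fin.succ (Fin.succ (Fin.succ (Fin.succ (Fin.succ 0)))))) (0 + 1 + 1 + 1 + 1 + 1) =
      fun τ => v (g 5) (τ 5) := hs _ 5
  rw [e0, e1, e2, e3, e4, e5]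
  simp only [Pi.mul_apply, Pi.one_apply, mul_one]
  ring

lemma exists_perm {l : List ℕ} (h1 : l.length = 6) (h2 : l.Nodup) (h3 : ∀ x ∈ l, x < 6) :
    ∃ π : Equiv.Perm (Fin 6), l = List.ofFn (fun j : Fin 6 => (π j : ℕ)) := by
  have hb : ∀ j : Fin 6, l[(j : ℕ)]'(by omega) < 6 := fun j => h3 _ (List.getElem_mem _)
  let g : Fin 6 → Fin 6 := fun j => ⟨l[(j : ℕ)]'(by omega), hb j⟩
  have hinj : Function.Injective g := by
    intro a b hab
    have h4 : l[(a : ℕ)]'(by omega) = l[(b : ℕ)]'(by omega) := congrArg Fin.val hab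
    exact Fin.ext ((List.Nodup.getElem_inj_iff h2).1 h4)
  refine ⟨Equiv.ofBijective g (Finite.injective_iff_bijective.1 hinj), ?_⟩
  apply List.ext_getElem
  · simp [h1]
  · intro i hi hi'
    rw [List.getElem_ofFn]
    rfl

end Pool.Agent.Helper429
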