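import Mathlib
import Pool.Agent.Helper429.Phi

set_option autoImplicit false

namespace Pool.Agent.Helper429

open scoped commutatorElement

def fU (F : ℕ → GG) (x : ℕ) : U := (F x).1.1
def vF (F : ℕ → GG) (x : ℕ) : V6 := Multiplicative.toAdd (F x).1.2

lemma fU_uni (F : ℕ → GG) (x : ℕ) : Uni (fU F x) := (F x).2.1

lemma sd_fU (F : ℕ → GG) (x : ℕ) (j : Fin 6) : sd (fU F) x j = fun τ => vF F x (τ j) :=
  (F x).2.2 j

/-- projection to the matrix part -/
def prU : GG →* U := (MonoidHom.fst U (Multiplicative V6)).comp GG.subtype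

lemma prU_lift {α : Type*} (F : α → GG) (g : FreeGroup α) :
    prU (FreeGroup.lift F g) = FreeGroup.lift (fun x => (F x).1.1) g := by
  have : prU.comp (FreeGroup.lift F) = FreeGroup.lift (fun x => (F x).1.1) := by
    ext x
    simp [prU]
  exact DFunLike.congr_fun this g

/-- The subgroup cut out by the functional. -/
def HH : Subgroup GG where
  carrier := {p | ((prU p : U) : Mat) - 1 ∈ NN 6 ∧ Phi (ent (((prU p : U) : Mat) - 1) 0 6) = 0}
  one_mem' := by
    simp only [Set.mem_setOf_eq, map_one, Units.val_one, sub_self]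
    exact ⟨(NN 6).zero_mem, by rw [ent_zero, Phi_zero]⟩
  mul_mem' := by
    rintro a b ⟨ha, ha'⟩ ⟨hb, hb'⟩
    refine ⟨by rw [map_mul]; exact mul_mem_NN ha hb, ?_⟩
    rw [map_mul, unit_mul_sub, ent_add, ent_add, NN_seven (k := 12) (by norm_num) (NN_mul ha hb),
      ent_zero, add_zero, Phi_add, ha', hb', add_zero]
  inv_mem' := by
    rintro a ⟨ha, ha'⟩
    have hu : Uni (prU a) := a.2.1
    refine ⟨by rw [map_inv]; exact inv_mem_NN hu ha, ?_⟩
    rw [map_inv, unit_inv_sub, ent_sub, ent_neg, NN_seven (k := 7) (by norm_num) (NN_mul ha hu.2),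
      ent_zero, sub_zero, Phi_neg, ha', neg_zero]

/-- The set of laws. -/
def SG : Subgroup (FreeGroup ℕ) where
  carrier := {g | ∀ F : ℕ → GG, FreeGroup.lift F g ∈ HH}
  one_mem' := by intro F; rw [map_one]; exact HH.one_mem
  mul_mem' := by intro a b ha hb F; rw [map_mul]; exact HH.mul_mem (ha F) (hb F)
  inv_mem' := by intro a ha F; rw [map_inv]; exact HH.inv_mem (ha F)

lemma mem_SG {g : FreeGroup ℕ} : g ∈ SG ↔ ∀ F : ℕ → GG, FreeGroup.lift F g ∈ HH := Iff.rfl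

lemma mem_SG' {g : FreeGroup ℕ} : g ∈ SG ↔ ∀ F : ℕ → GG,
    ((FreeGroup.lift (fU F) g : U) : Mat) - 1 ∈ NN 6 ∧
    Phi (ent (((FreeGroup.lift (fU F) g : U) : Mat) - 1) 0 6) = 0 := by
  rw [mem_SG]
  apply forall_congr'
  intro F
  have h : prU (FreeGroup.lift F g) = FreeGroup.lift (fU F) g := prU_lift F g
  constructor
  · intro h1
    have h2 : ((prU (FreeGroup.lift F g) : U) : Mat) - 1 ∈ NN 6 ∧
      Phi (ent (((prU (FreeGroup.lift F g) : U) : Mat) - 1) 0 6) = 0 := h1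
    rwa [h] at h2
  · intro h1
    change ((prU (FreeGroup.lift F g) : U) : Mat) - 1 ∈ NN 6 ∧
      Phi (ent (((prU (FreeGroup.lift F g) : U) : Mat) - 1) 0 6) = 0
    rwa [h]

/-- full invariance -/
lemma SG_map {g : FreeGroup ℕ} (hg : g ∈ SG) (φ : FreeGroup ℕ →* FreeGroup ℕ) : φ g ∈ SG := by
  intro F
  have h : (FreeGroup.lift F).comp φ = FreeGroup.lift (fun x => FreeGroup.lift F (φ (FreeGroup.of x))) := by
    apply FreeGroup.ext_hom
    intro x
    rw [FreeGroup.lift_apply_of]; rfl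
  have h2 := DFunLike.congr_fun h g
  rw [MonoidHom.comp_apply] at h2
  rw [h2]
  exact hg _

/-- Value of a word through the functional. -/
def Val (g : FreeGroup ℕ) (K : (ℕ → ℕ) → ℤ) : Prop :=
  ∀ F : ℕ → GG, ((FreeGroup.lift (fU F) g : U) : Mat) - 1 ∈ NN 6 ∧
    Phi (ent (((FreeGroup.lift (fU F) g : U) : Mat) - 1) 0 6) =
      ∑ τ : Equiv.Perm (Fin 6), sg τ * (∏ x : Fin 6, vF F x (τ x)) * ((K (et τ) : ℤ) : ZMod 3)

lemma Val.mem {g : FreeGroup ℕ} {K : (ℕ → ℕ) → ℤ} (h : Val g K)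
    (hK : ∀ τ : Equiv.Perm (Fin 6), ((K (et τ) : ℤ) : ZMod 3) = 0) : g ∈ SG := by
  rw [mem_SG']
  intro F
  refine ⟨(h F).1, ?_⟩
  rw [(h F).2]
  apply Finset.sum_eq_zero
  intro τ _
  rw [hK, mul_zero]

lemma Val.mul {a b : FreeGroup ℕ} {K K' : (ℕ → ℕ) → ℤ} (ha : Val a K) (hb : Val b K') :
    Val (a * b) (fun η => K η + K' η) := by
  intro F
  refine ⟨by rw [map_mul]; exact mul_mem_NN (ha F).1 (hb F).1, ?_⟩
  rw [map_mul, unit_mul_sub, ent_add, ent_add,
    NN_seven (k := 12) (by norm_num) (NN_mul (ha F).1 (hb F).1),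
    ent_zero, add_zero, Phi_add, (ha F).2, (hb F).2, ← Finset.sum_add_distrib]
  apply Finset.sum_congr rfl
  intro τ _
  push_cast
  ring

lemma Val.inv {a : FreeGroup ℕ} {K : (ℕ → ℕ) → ℤ} (ha : Val a K) :
    Val a⁻¹ (fun η => - K η) := by
  intro F
  have hu : Uni (FreeGroup.lift (fU F) a) := Uni.lift (fU_uni F) a
  refine ⟨by rw [map_inv]; exact inv_mem_NN hu (ha F).1, ?_⟩
  rw [map_inv, unit_inv_sub, ent_sub, ent_neg,
    NN_seven (k := 7) (by norm_num) (NN_mul (ha F).1 hu.2),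
    ent_zero, sub_zero, Phi_neg, (ha F).2, ← Finset.sum_neg_distrib]
  apply Finset.sum_congr rfl
  intro τ _
  push_cast
  ring

lemma Val.one : Val 1 (fun _ => 0) := by
  intro F
  refine ⟨by rw [map_one]; simp, ?_⟩
  simp [ent_zero, Phi_zero]

lemma Val.congr {a : FreeGroup ℕ} {K K' : (ℕ → ℕ) → ℤ} (ha : Val a K)
    (h : ∀ τ : Equiv.Perm (Fin 6), ((K (et τ) : ℤ) : ZMod 3) = ((K' (et τ) : ℤ) : ZMod 3)) :
    Val a K' := by
  intro F
  refine ⟨(ha F).1, ?_⟩
  rw [(ha F).2]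
  apply Finset.sum_congr rfl
  intro τ _
  rw [h]

lemma Val.npow {a : FreeGroup ℕ} {K : (ℕ → ℕ) → ℤ} (ha : Val a K) (n : ℕ) :
    Val (a ^ n) (fun η => n * K η) := by
  induction n with
  | zero => simpa using Val.one
  | succ n ih =>
    rw [pow_succ]
    refine (ih.mul ha).congr (fun τ => ?_)
    push_cast; ring

lemma Val.zpow {a : FreeGroup ℕ} {K : (ℕ → ℕ) → ℤ} (ha : Val a K) (n : ℤ) :
    Val (a ^ n) (fun η => n * K η) := by
  cases n with
  | ofNat n => simpa using ha.npow n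
  | negSucc n =>
    rw [zpow_negSucc]
    refine ((ha.npow (n + 1)).inv).congr (fun τ => ?_)
    rw [Int.negSucc_eq]
    push_cast
    ring

/-- renaming endomorphism attached to a permutation -/
def ren (ω : Equiv.Perm (Fin 6)) : FreeGroup ℕ →* FreeGroup ℕ :=
  FreeGroup.lift (fun x => FreeGroup.of (tl ω x))

lemma lift_ren {G : Type*} [Group G] (f : ℕ → G) (ω : Equiv.Perm (Fin 6)) (g : FreeGroup ℕ) :
    FreeGroup.lift f (ren ω g) = FreeGroup.lift (fun x => f (tl ω x)) g := by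
  have : (FreeGroup.lift f).comp (ren ω) = FreeGroup.lift (fun x => f (tl ω x)) := by
    ext x; simp [ren]
  exact DFunLike.congr_fun this g

lemma Val.ren {g : FreeGroup ℕ} {K : (ℕ → ℕ) → ℤ} (hg : Val g K) (ω : Equiv.Perm (Fin 6)) :
    Val (ren ω g) (fun η => (Equiv.Perm.sign ω : ℤ) * K (fun x => η (tl ω x))) := by
  intro F
  rw [lift_ren]
  have h := hg (fun x => F (tl ω x))
  refine ⟨h.1, ?_⟩
  have h2 := h.2
  change Phi (ent (((FreeGroup.lift (fun x => fU F (tl ω x)) g : U) : Mat) - 1) 0 6) = _ at h2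
  rw [h2]
  change (∑ τ : Equiv.Perm (Fin 6), sg τ * (∏ x : Fin 6, vF F (tl ω x) (τ x)) *
    ((K (et τ) : ℤ) : ZMod 3)) = _
  rw [← Equiv.sum_comp (Equiv.mulRight ω)]
  apply Finset.sum_congr rfl
  intro τ _
  simp only [Equiv.coe_mulRight, sg_mul]
  have h1 : et (τ * ω) = fun x => et τ (tl ω x) := by
    funext j; simp [et, tl_mul]
  rw [h1]
  have h2 : ∏ j : Fin 6, vF F (tl ω j) ((τ * ω) j) = ∏ x : Fin 6, vF F x (τ x) := by
    rw [← Equiv.prod_comp ω (fun x : Fin 6 => vF F x (τ x))]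
    apply Finset.prod_congr rfl
    intro j _
    rw [tl_fin]; rfl
  rw [h2]
  push_cast
  ring

/-- The polynomial `K` attached to a formal polynomial. -/
def KE (E : List (ℤ × List ℕ)) (η : ℕ → ℕ) : ℤ :=
  (E.map (fun q => q.1 * (sgL q.2 * hN (q.2.map η)))).sum

lemma Rep.val {g : FreeGroup ℕ} {E : List (ℤ × List ℕ)} (h : Rep 6 g E)
    (hE : ∀ q ∈ E, q.2.Nodup ∧ ∀ x ∈ q.2, x < 6) : Val g (KE E) := by
  intro F
  refine ⟨(h.2 (fU F) (fU_uni F)).1, ?_⟩
  have h1 := (h.2 (fU F) (fU_uni F)).2 0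
  rw [Nat.zero_add] at h1
  rw [h1]
  have hlen := h.1
  clear h h1
  induction E with
  | nil => simp [pev, Phi_zero, KE]
  | cons q E ih =>
    have ih' := ih (fun q hq => hE q (List.mem_cons_of_mem _ hq))
      (fun q hq => hlen q (List.mem_cons_of_mem _ hq))
    obtain ⟨π, hπ⟩ := exists_perm (hlen q List.mem_cons_self) (hE q List.mem_cons_self).1
      (hE q List.mem_cons_self).2
    have e1 : pev (sd (fU F)) 0 (q :: E) = q.1 • mon (sd (fU F)) 0 q.2 + pev (sd (fU F)) 0 E := by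
      simp [pev]
    have e2 : ∀ η, KE (q :: E) η = q.1 * (sgL q.2 * hN (q.2.map η)) + KE E η := by
      intro η; simp [KE]
    rw [e1, Phi_add, ih', Phi_zsmul, hπ, mon_ofFn _ (vF F) (sd_fU F)]
    have e3 := reindex hN (vF F) π
    have e4 : Phi (fun τ => ∏ j : Fin 6, vF F (π j) (τ j)) =
        ∑ τ : Equiv.Perm (Fin 6), sg τ * (∏ x : Fin 6, vF F x (τ x)) *
      (sg π * ((hN (List.ofFn fun j : Fin 6 => et τ (π j)) : ℤ) : ZMod 3)) := e3
    rw [e4, Finset.smul_sum, ← Finset.sum_add_distrib]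
    apply Finset.sum_congr rfl
    intro τ _
    rw [e2, hπ, sgL_ofFn, List.map_ofFn]
    have e5 : (et τ ∘ fun j : Fin 6 => ((π j : Fin 6) : ℕ)) = fun j : Fin 6 => et τ (π j) := rfl
    rw [e5]
    push_cast
    rw [zsmul_eq_mul]
    ring

end Pool.Agent.Helper429
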