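import Mathlib
import Pool.Agent.Helper429.SSet

set_option autoImplicit false

namespace Pool.Agent.Helper429

open scoped commutatorElement

def relData : List (ℤ × List ℕ × List ℕ) :=
  [(-1, [0,6,5], [2,4,3,1]),
   (-1, [2,3,0], [4,1,6,5]),
   (1, [5,2,0], [1,3,6,4]),
   (-1, [0,6,4], [1,5,3,2]),
   (-1, [1,3,0], [5,2,6,4]),
   (-1, [2,6,1], [0,3,5,4]),
   (-1, [0,5,4], [3,2,6,1]),
   (1, [4,1,0], [2,3,6,5])]

def kap0 : List (ℤ × List ℕ) :=
  [(-1, [5,4,1,3,2,0]),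
   (1, [4,5,1,3,2,0]),
   (-1, [2,1,3,0,5,4]),
   (1, [1,4,0,2,5,3]),
   (-1, [5,3,0,4,2,1]),
   (1, [3,5,0,4,2,1]),
   (-1, [2,0,4,1,5,3]),
   (-1, [2,4,3,1,5,0]),
   (1, [2,3,4,1,5,0]),
   (1, [4,3,2,1,5,0]),
   (-1, [3,4,2,1,5,0]),
   (-1, [4,3,2,1,5,0]),
   (1, [3,4,2,1,5,0]),
   (1, [0,3,1,2,5,4])]

def kap1 : List (ℤ × List ℕ) :=
  [(1, [2,3,1,0,5,4]),
   (1, [5,4,3,1,2,0]),
   (-1, [4,5,3,1,2,0]),
   (1, [2,5,3,4,1,0]),
   (-1, [2,3,5,4,1,0]),
   (-1, [5,3,2,4,1,0]),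
   (1, [3,5,2,4,1,0]),
   (-1, [4,2,1,0,5,3]),
   (1, [4,1,2,0,5,3]),
   (1, [2,1,4,0,5,3]),
   (-1, [1,2,4,0,5,3]),
   (-1, [2,0,4,1,5,3]),
   (1, [0,2,4,1,5,3]),
   (-1, [5,1,0,2,4,3]),
   (1, [5,1,2,0,4,3]),
   (-1, [0,3,1,2,5,4])]

def kap2 : List (ℤ × List ℕ) :=
  [(-1, [3,2,1,0,5,4]),
   (1, [3,1,2,0,5,4]),
   (1, [2,1,3,0,5,4]),
   (-1, [1,2,3,0,5,4]),
   (-1, [2,0,3,1,5,4]),
   (1, [0,2,3,1,5,4]),
   (-1, [0,4,1,2,5,3]),
   (1, [2,4,1,0,5,3]),
   (1, [5,3,4,1,2,0]),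
   (-1, [3,5,4,1,2,0]),
   (-1, [5,1,0,2,4,3]),
   (1, [1,5,0,2,4,3]),
   (1, [5,1,2,0,4,3]),
   (-1, [1,5,2,0,4,3]),
   (1, [2,5,4,3,1,0]),
   (-1, [2,4,5,3,1,0]),
   (-1, [5,4,2,3,1,0]),
   (1, [4,5,2,3,1,0])]

def kap3 : List (ℤ × List ℕ) :=
  [(-1, [1,3,2,0,5,4]),
   (1, [0,2,3,1,5,4]),
   (-1, [5,3,1,4,2,0]),
   (1, [3,5,1,4,2,0]),
   (-1, [2,4,1,0,5,3]),
   (1, [0,1,4,2,5,3]),
   (1, [4,3,0,2,5,1]),
   (-1, [3,4,0,2,5,1]),
   (-1, [2,5,1,0,4,3]),
   (1, [2,1,5,0,4,3]),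
   (1, [5,1,2,0,4,3]),
   (-1, [1,5,2,0,4,3]),
   (-1, [5,4,2,3,1,0]),
   (1, [4,5,2,3,1,0])]

def kap4 : List (ℤ × List ℕ) :=
  [(1, [3,1,2,0,5,4]),
   (-1, [1,3,2,0,5,4]),
   (-1, [1,5,4,2,3,0]),
   (1, [1,4,5,2,3,0]),
   (1, [5,4,1,2,3,0]),
   (-1, [4,5,1,2,3,0]),
   (-1, [5,3,1,4,2,0]),
   (-1, [5,0,1,4,3,2]),
   (1, [5,2,4,1,3,0]),
   (1, [4,3,0,2,5,1]),
   (-1, [4,0,3,2,5,1]),
   (1, [1,0,2,3,5,4]),
   (-1, [0,1,2,3,5,4])]

def kap5 : List (ℤ × List ℕ) :=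
  [(-1, [5,0,2,4,3,1]),
   (1, [5,1,4,2,3,0]),
   (1, [2,0,1,3,5,4]),
   (-1, [0,2,1,3,5,4]),
   (1, [3,2,1,0,5,4]),
   (-1, [2,3,1,0,5,4]),
   (-1, [2,5,4,1,3,0]),
   (1, [2,4,5,1,3,0]),
   (1, [5,4,2,1,3,0]),
   (-1, [4,5,2,1,3,0]),
   (-1, [4,3,0,2,5,1]),
   (1, [4,0,3,2,5,1]),
   (-1, [5,3,2,4,1,0])]

def kap6 : List (ℤ × List ℕ) :=
  [(1, [5,0,2,4,3,1]),
   (-1, [5,1,4,2,3,0]),
   (1, [4,3,1,5,2,0]),
   (1, [4,0,1,5,3,2]),
   (-1, [4,2,5,1,3,0]),
   (1, [1,2,0,3,5,4]),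
   (-1, [1,2,3,0,5,4]),
   (1, [5,3,2,4,1,0])]

def TBL : ℕ := 12885968792187287791496823827593068564461792030858827008238957491537767120398272339763691432457065454977186108302550758650796264103507170195008328116966453302270708967593576354624492008642943459544061547238565016521337252022573462821234782119955509817317967999105283842697493573016481917314532123072412661457491443139116601451492047121426520321853521574415734221341750574042475681221131920867385615802411054530560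

/-- left normed commutator of a reversed list of letters -/
def er {G : Type*} [Group G] (y : ℕ → G) : List ℕ → G
  | [] => 1
  | [x] => y x
  | z :: x :: r => ⁅er y (x :: r), y z⁆

lemma map_er {G H : Type*} [Group G] [Group H] (φ : G →* H) (y : ℕ → G) (r : List ℕ) :
    φ (er y r) = er (fun x => φ (y x)) r := by
  induction r with
  | nil => simp [er]
  | cons z r ih =>
    cases r with
    | nil => simp [er]
    | cons x r => simp only [er, map_commutatorElement] at *; rw [ih]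

lemma er_map {G : Type*} [Group G] (y : ℕ → G) (t : ℕ → ℕ) (r : List ℕ) :
    er y (r.map t) = er (fun x => y (t x)) r := by
  induction r with
  | nil => simp [er]
  | cons z r ih =>
    cases r with
    | nil => simp [er]
    | cons x r => simp only [List.map_cons, er] at *; rw [ih]

/-- formal polynomial of a left normed commutator -/
def asc : List ℕ → List (ℤ × List ℕ)
  | [] => []
  | [x] => [(1, [x])]
  | z :: x :: r => pmul (asc (x :: r)) [(1, [z])] ++ pneg (pmul [(1, [z])] (asc (x :: r)))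

lemma Rep.er (r : List ℕ) (hr : r ≠ []) : Rep r.length (er FreeGroup.of r) (asc r) := by
  induction r with
  | nil => exact absurd rfl hr
  | cons z r ih =>
    cases r with
    | nil => exact Rep.gen z
    | cons x r =>
      have h1 := ih (by simp)
      exact Rep.comm h1 (Rep.gen z)

/-- the basic word of length six -/
def l0 : List ℕ := [5, 4, 3, 2, 1, 0]

/-- the word `[[x₀,x₁,x₂],[x₃,x₄,x₅]]` -/
def wrd : FreeGroup ℕ :=
  ⁅⁅⁅FreeGroup.of 0, FreeGroup.of 1⁆, FreeGroup.of 2⁆,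
    ⁅⁅FreeGroup.of 3, FreeGroup.of 4⁆, FreeGroup.of 5⁆⁆

def Ew : List (ℤ × List ℕ) :=
  pmul (asc [2, 1, 0]) (asc [5, 4, 3]) ++ pneg (pmul (asc [5, 4, 3]) (asc [2, 1, 0]))

lemma rep_wrd : Rep 6 wrd Ew :=
  Rep.comm (Rep.er [2, 1, 0] (by simp)) (Rep.er [5, 4, 3] (by simp))

/-- pattern obtained from a list -/
def pt (l : List ℕ) (x : ℕ) : ℕ := l.getD x 0

/-- all balanced patterns, i.e. words with two letters of each of three kinds -/
def allP : ℕ → List (List ℕ)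
  | 0 => [[]]
  | n + 1 => (allP n).flatMap (fun l => [0 :: l, 1 :: l, 2 :: l])

def bal (l : List ℕ) : Bool := l.count 0 == 2 && l.count 1 == 2 && l.count 2 == 2

def balP : List (List ℕ) := (allP 6).filter bal

/-- the table lookup -/
def hT (n : ℕ) : ℤ := (((TBL >>> (2 * n)) &&& 3 : ℕ) : ℤ)

def K0 (η : ℕ → ℕ) : ℤ := hT (code [η 0, η 1, η 2, η 3, η 4, η 5])

/-- all terms of the polynomials are permutations of the six letters -/
def okE (E : List (ℤ × List ℕ)) : Bool :=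
  E.all (fun q => decide (q.2.Nodup) && q.2.all (fun x => decide (x < 6)))

lemma okE_asc : okE (asc l0) = true := by decide +kernel
lemma okE_Ew : okE Ew = true := by decide +kernel

lemma chk_w : balP.all (fun l => decide (KE Ew (pt l) % 3 = 2)) = true := by decide +kernel
lemma chk_0 : balP.all (fun l => decide ((KE (asc l0) (pt l) - K0 (pt l)) % 3 = 0)) = true := by
  decide +kernel

/-- the `K` polynomial of a product of left normed commutators -/
def KD (D : List (ℤ × List ℕ)) (η : ℕ → ℕ) : ℤ :=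
  (D.map (fun q => q.1 * (sgL q.2.reverse * hT (code (q.2.reverse.map η))))).sum

def okD (D : List (ℤ × List ℕ)) : Bool :=
  D.all (fun q => decide (q.2.length = 6) && decide (q.2.Nodup) && q.2.all (fun x => decide (x < 6)))

lemma okD_all : (okD kap0 && okD kap1 && okD kap2 && okD kap3 && okD kap4 && okD kap5 && okD kap6)
    = true := by decide +kernel

lemma chk_k0 : balP.all (fun l => decide (KD kap0 (pt l) % 3 = 0)) = true := by decide +kernel
lemma chk_k1 : balP.all (fun l => decide (KD kap1 (pt l) % 3 = 0)) = true := by decide +kernel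
lemma chk_k2 : balP.all (fun l => decide (KD kap2 (pt l) % 3 = 0)) = true := by decide +kernel
lemma chk_k3 : balP.all (fun l => decide (KD kap3 (pt l) % 3 = 0)) = true := by decide +kernel
lemma chk_k4 : balP.all (fun l => decide (KD kap4 (pt l) % 3 = 0)) = true := by decide +kernel
lemma chk_k5 : balP.all (fun l => decide (KD kap5 (pt l) % 3 = 0)) = true := by decide +kernel
lemma chk_k6 : balP.all (fun l => decide (KD kap6 (pt l) % 3 = 2)) = true := by decide +kernel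

end Pool.Agent.Helper429
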