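import Mathlib
import Pool.Agent.Helper429.Data

set_option autoImplicit false

namespace Pool.Agent.Helper429

open scoped commutatorElement

lemma mem_allP {n : ℕ} {l : List ℕ} (h1 : l.length = n) (h2 : ∀ x ∈ l, x < 3) : l ∈ allP n := by
  induction n generalizing l with
  | zero =>
    rw [List.length_eq_zero_iff] at h1
    subst h1
    simp [allP]
  | succ n ih =>
    cases l with
    | nil => simp at h1
    | cons x l =>
      have h3 : l ∈ allP n := ih (by simpa using h1) (fun y hy => h2 y (List.mem_cons_of_mem _ hy))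
      have hx : x < 3 := h2 x List.mem_cons_self
      simp only [allP, List.mem_flatMap]
      refine ⟨l, h3, ?_⟩
      have : x = 0 ∨ x = 1 ∨ x = 2 := by omega
      rcases this with rfl | rfl | rfl <;> simp

/-- the pattern list of a permutation -/
def pl (τ : Equiv.Perm (Fin 6)) : List ℕ := List.ofFn (fun j : Fin 6 => et τ j)

lemma pl_mem (τ : Equiv.Perm (Fin 6)) : pl τ ∈ balP := by
  have hperm : (pl τ).Perm [0, 0, 1, 1, 2, 2] := by
    have h1 := Equiv.Perm.ofFn_comp_perm τ (fun j : Fin 6 => (j : ℕ) / 2)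
    have h2 : List.ofFn ((fun j : Fin 6 => (j : ℕ) / 2) ∘ τ) = pl τ := by
      unfold pl
      congr 1
      funext j
      simp [et, tl_fin]
    rw [h2] at h1
    exact h1
  unfold balP
  rw [List.mem_filter]
  constructor
  · apply mem_allP
    · simp [pl]
    · intro x hx
      have := hperm.subset hx
      simp at this
      omega
  · unfold bal
    rw [hperm.count_eq, hperm.count_eq, hperm.count_eq]
    decide

lemma pt_pl (τ : Equiv.Perm (Fin 6)) {x : ℕ} (hx : x < 6) : pt (pl τ) x = et τ x := by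
  unfold pt pl
  rw [List.getD_eq_getElem _ _ (by simpa using hx), List.getElem_ofFn]

lemma KE_congr {E : List (ℤ × List ℕ)} (hE : ∀ q ∈ E, ∀ x ∈ q.2, x < 6) {η η' : ℕ → ℕ}
    (h : ∀ x < 6, η x = η' x) : KE E η = KE E η' := by
  unfold KE
  congr 1
  apply List.map_congr_left
  intro q hq
  have : q.2.map η = q.2.map η' := List.map_congr_left (fun x hx => h x (hE q hq x hx))
  rw [this]

lemma KD_congr {D : List (ℤ × List ℕ)} (hD : ∀ q ∈ D, ∀ x ∈ q.2, x < 6) {η η' : ℕ → ℕ}
    (h : ∀ x < 6, η x = η' x) : KD D η = KD D η' := by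
  unfold KD
  congr 1
  apply List.map_congr_left
  intro q hq
  have : q.2.reverse.map η = q.2.reverse.map η' :=
    List.map_congr_left (fun x hx => h x (hD q hq x (List.mem_reverse.1 hx)))
  rw [this]

lemma okE_spec {E : List (ℤ × List ℕ)} (h : okE E = true) :
    ∀ q ∈ E, q.2.Nodup ∧ ∀ x ∈ q.2, x < 6 := by
  intro q hq
  unfold okE at h
  rw [List.all_eq_true] at h
  have := h q hq
  simpa using this

lemma okD_spec {D : List (ℤ × List ℕ)} (h : okD D = true) :
    ∀ q ∈ D, q.2.length = 6 ∧ q.2.Nodup ∧ ∀ x ∈ q.2, x < 6 := by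
  intro q hq
  unfold okD at h
  rw [List.all_eq_true] at h
  have := h q hq
  simp at this
  exact ⟨this.1.1, this.1.2, this.2⟩

lemma cast_eq_of_mod {a b : ℤ} (h : (a - b) % 3 = 0) : ((a : ℤ) : ZMod 3) = ((b : ℤ) : ZMod 3) := by
  have h1 : (((3 : ℕ) : ℤ)) ∣ a - b := by
    have := Int.dvd_of_emod_eq_zero h
    exact_mod_cast this
  have h2 := (ZMod.intCast_zmod_eq_zero_iff_dvd (a - b) 3).2 h1
  push_cast at h2
  exact sub_eq_zero.1 h2

lemma val_wrd : Val wrd (fun _ => 2) := by
  refine (rep_wrd.val (okE_spec okE_Ew)).congr (fun τ => ?_)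
  have h1 : KE Ew (et τ) = KE Ew (pt (pl τ)) :=
    KE_congr (fun q hq => (okE_spec okE_Ew q hq).2) (fun x hx => (pt_pl τ hx).symm)
  rw [h1]
  have h2 := chk_w
  rw [List.all_eq_true] at h2
  have h3 := of_decide_eq_true (h2 _ (pl_mem τ))
  apply cast_eq_of_mod
  omega

lemma val_l0 : Val (er FreeGroup.of l0) K0 := by
  have h0 : Rep 6 (er FreeGroup.of l0) (asc l0) := Rep.er l0 (by simp [l0])
  refine (h0.val (okE_spec okE_asc)).congr (fun τ => ?_)
  have h1 : KE (asc l0) (et τ) = KE (asc l0) (pt (pl τ)) :=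
    KE_congr (fun q hq => (okE_spec okE_asc q hq).2) (fun x hx => (pt_pl τ hx).symm)
  have h4 : K0 (et τ) = K0 (pt (pl τ)) := by
    unfold K0
    rw [pt_pl τ (by norm_num), pt_pl τ (by norm_num), pt_pl τ (by norm_num), pt_pl τ (by norm_num),
      pt_pl τ (by norm_num), pt_pl τ (by norm_num)]
  rw [h1, h4]
  have h2 := chk_0
  rw [List.all_eq_true] at h2
  exact cast_eq_of_mod (of_decide_eq_true (h2 _ (pl_mem τ)))

lemma val_er {r : List ℕ} (h1 : r.length = 6) (h2 : r.Nodup) (h3 : ∀ x ∈ r, x < 6) :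
    Val (er FreeGroup.of r) (fun η => sgL r.reverse * hT (code (r.reverse.map η))) := by
  obtain ⟨ω, hω⟩ := exists_perm (l := r.reverse) (by simpa using h1) (List.nodup_reverse.2 h2)
    (fun x hx => h3 x (List.mem_reverse.1 hx))
  have hr : r = l0.map (tl ω) := by
    have h4 : r = (List.ofFn fun j : Fin 6 => (ω j : ℕ)).reverse := by
      rw [← hω, List.reverse_reverse]
    rw [h4]
    simp [l0, List.ofFn_succ, tl]
  have h5 : er FreeGroup.of r = ren ω (er FreeGroup.of l0) := by
    rw [map_er, hr, er_map]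
    congr 1
  rw [h5]
  refine (val_l0.ren ω).congr (fun τ => ?_)
  rw [hω, sgL_ofFn]
  have h6 : K0 (fun x => et τ (tl ω x)) =
      hT (code ((List.ofFn fun j : Fin 6 => (ω j : ℕ)).map (et τ))) := by
    unfold K0
    simp [List.ofFn_succ, tl]
  rw [h6]

/-- product of left normed commutators with exponents -/
def kapW (D : List (ℤ × List ℕ)) : FreeGroup ℕ :=
  (D.map (fun q => (er FreeGroup.of q.2) ^ q.1)).prod

lemma val_kapW {D : List (ℤ × List ℕ)} (hD : ∀ q ∈ D, q.2.length = 6 ∧ q.2.Nodup ∧ ∀ x ∈ q.2, x < 6) :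
    Val (kapW D) (KD D) := by
  induction D with
  | nil => exact Val.one
  | cons q D ih =>
    have ih' := ih (fun q hq => hD q (List.mem_cons_of_mem _ hq))
    obtain ⟨h1, h2, h3⟩ := hD q List.mem_cons_self
    have h4 := ((val_er h1 h2 h3).zpow q.1).mul ih'
    have h5 : kapW (q :: D) = (er FreeGroup.of q.2) ^ q.1 * kapW D := by simp [kapW]
    rw [h5]
    refine h4.congr (fun τ => ?_)
    simp [KD]

lemma kap_mem {D : List (ℤ × List ℕ)} (hD : okD D = true)
    (hc : balP.all (fun l => decide (KD D (pt l) % 3 = 0)) = true) : kapW D ∈ SG := by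
  refine (val_kapW (okD_spec hD)).mem (fun τ => ?_)
  have h1 : KD D (et τ) = KD D (pt (pl τ)) :=
    KD_congr (fun q hq => (okD_spec hD q hq).2.2) (fun x hx => (pt_pl τ hx).symm)
  rw [h1]
  rw [List.all_eq_true] at hc
  have h3 := of_decide_eq_true (hc _ (pl_mem τ))
  have := cast_eq_of_mod (a := KD D (pt (pl τ))) (b := 0) (by omega)
  simpa using this

lemma okD0 : okD kap0 = true := by have := okD_all; simp only [Bool.and_eq_true] at this; tauto
lemma okD1 : okD kap1 = true := by have := okD_all; simp only [Bool.and_eq_true] at this; tauto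
lemma okD2 : okD kap2 = true := by have := okD_all; simp only [Bool.and_eq_true] at this; tauto
lemma okD3 : okD kap3 = true := by have := okD_all; simp only [Bool.and_eq_true] at this; tauto
lemma okD4 : okD kap4 = true := by have := okD_all; simp only [Bool.and_eq_true] at this; tauto
lemma okD5 : okD kap5 = true := by have := okD_all; simp only [Bool.and_eq_true] at this; tauto
lemma okD6 : okD kap6 = true := by have := okD_all; simp only [Bool.and_eq_true] at this; tauto

lemma kap0_mem : kapW kap0 ∈ SG := kap_mem okD0 chk_k0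
lemma kap1_mem : kapW kap1 ∈ SG := kap_mem okD1 chk_k1
lemma kap2_mem : kapW kap2 ∈ SG := kap_mem okD2 chk_k2
lemma kap3_mem : kapW kap3 ∈ SG := kap_mem okD3 chk_k3
lemma kap4_mem : kapW kap4 ∈ SG := kap_mem okD4 chk_k4
lemma kap5_mem : kapW kap5 ∈ SG := kap_mem okD5 chk_k5

lemma kap6_mem : kapW kap6 * wrd⁻¹ ∈ SG := by
  refine ((val_kapW (okD_spec okD6)).mul val_wrd.inv).mem (fun τ => ?_)
  have h1 : KD kap6 (et τ) = KD kap6 (pt (pl τ)) :=
    KD_congr (fun q hq => (okD_spec okD6 q hq).2.2) (fun x hx => (pt_pl τ hx).symm)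
  rw [h1]
  have hc := chk_k6
  rw [List.all_eq_true] at hc
  have h3 := of_decide_eq_true (hc _ (pl_mem τ))
  have := cast_eq_of_mod (a := KD kap6 (pt (pl τ)) + -2) (b := 0) (by omega)
  simpa using this

end Pool.Agent.Helper429
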