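import Mathlib
import Pool.Agent.Helper429.Kap

set_option autoImplicit false

namespace Pool.Agent.Helper429

open scoped commutatorElement

section calc_

variable {G : Type*} [Group G]

/-- the lower central series, `L G n` being the term of weight `n + 1` -/
abbrev L (G : Type*) [Group G] (n : ℕ) : Subgroup G := (⊤ : Subgroup G).lowerCentralSeries n

lemma three_mod (A B C N : Subgroup G) [A.Normal] [B.Normal] [C.Normal] [N.Normal]
    (h1 : ⁅⁅B, C⁆, A⁆ ≤ N) (h2 : ⁅⁅C, A⁆, B⁆ ≤ N) : ⁅⁅A, B⁆, C⁆ ≤ N := by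
  have key : ∀ K : Subgroup G, K.map (QuotientGroup.mk' N) = ⊥ ↔ K ≤ N := by
    intro K
    rw [Subgroup.map_eq_bot_iff, QuotientGroup.ker_mk']
  rw [← key] at h1 h2 ⊢
  rw [Subgroup.map_commutator, Subgroup.map_commutator] at h1 h2 ⊢
  exact Subgroup.commutator_commutator_eq_bot_of_rotate h1 h2

lemma L_comm (i j : ℕ) : ⁅L G i, L G j⁆ ≤ L G (i + j + 1) := by
  induction j generalizing i with
  | zero => exact le_refl _
  | succ j ih =>
    rw [Subgroup.commutator_comm]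
    change ⁅⁅L G j, ⊤⁆, L G i⁆ ≤ _
    apply three_mod
    · rw [Subgroup.commutator_comm ⊤]
      change ⁅L G (i + 1), L G j⁆ ≤ _
      refine (ih (i + 1)).trans (le_of_eq ?_)
      congr 1
      ring
    · refine (Subgroup.commutator_mono (ih i) le_rfl).trans (le_of_eq ?_)
      rfl

lemma L_anti {i j : ℕ} (h : i ≤ j) : L G j ≤ L G i := Subgroup.lowerCentralSeries_antitone _ h

lemma comm_mem_L {i j k : ℕ} {a b : G} (ha : a ∈ L G i) (hb : b ∈ L G j) (h : k ≤ i + j + 1) :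
    ⁅a, b⁆ ∈ L G k :=
  L_anti h (L_comm i j (Subgroup.commutator_mem_commutator ha hb))

/-- congruence modulo a term of the lower central series -/
def Cg (n : ℕ) (a b : G) : Prop := QuotientGroup.mk' (L G n) a = QuotientGroup.mk' (L G n) b

lemma Cg.refl (n : ℕ) (a : G) : Cg n a a := rfl
lemma Cg.symm {n : ℕ} {a b : G} (h : Cg n a b) : Cg n b a := Eq.symm h
lemma Cg.trans {n : ℕ} {a b c : G} (h : Cg n a b) (h' : Cg n b c) : Cg n a c := Eq.trans h h'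
lemma Cg.mul {n : ℕ} {a b c d : G} (h : Cg n a b) (h' : Cg n c d) : Cg n (a * c) (b * d) := by
  unfold Cg at *; rw [map_mul, map_mul, h, h']
lemma Cg.inv {n : ℕ} {a b : G} (h : Cg n a b) : Cg n a⁻¹ b⁻¹ := by
  unfold Cg at *; rw [map_inv, map_inv, h]
lemma Cg.zpow {n : ℕ} {a b : G} (h : Cg n a b) (k : ℤ) : Cg n (a ^ k) (b ^ k) := by
  unfold Cg at *; rw [map_zpow, map_zpow, h]

lemma Cg_iff {n : ℕ} {a b : G} : Cg n a b ↔ a⁻¹ * b ∈ L G n := QuotientGroup.eq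

lemma Cg.mem {n m : ℕ} {a b : G} (h : Cg n a b) (ha : a ∈ L G m) (hm : m ≤ n) : b ∈ L G m := by
  have h1 := (L G m).mul_mem ha (L_anti hm (Cg_iff.1 h))
  simpa using h1

lemma Cg_comm {i j n : ℕ} {a b : G} (ha : a ∈ L G i) (hb : b ∈ L G j) (h : n ≤ i + j + 1) :
    Cg n (a * b) (b * a) := by
  have h1 := comm_mem_L ha hb h
  unfold Cg
  rw [map_mul, map_mul]
  exact commute_mk _ h1

/-- `⁅a * b, c⁆` modulo higher terms -/
lemma Cg_mul_left {i j n : ℕ} {a b c : G} (hb : b ∈ L G i) (ha : a ∈ L G i) (hc : c ∈ L G j)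
    (h : n ≤ i + j + 2) : Cg n ⁅a * b, c⁆ (⁅a, c⁆ * ⁅b, c⁆) := by
  have e : ⁅a * b, c⁆ = (⁅a, ⁅b, c⁆⁆ * ⁅b, c⁆) * ⁅a, c⁆ := by
    simp only [commutatorElement_def]; group
  rw [e]
  have h1 : ⁅b, c⁆ ∈ L G (i + j + 1) := comm_mem_L hb hc le_rfl
  have h2 : ⁅a, ⁅b, c⁆⁆ ∈ L G n := comm_mem_L ha h1 (by omega)
  have h3 : Cg n (⁅a, ⁅b, c⁆⁆ * ⁅b, c⁆) ⁅b, c⁆ := by
    have : Cg n 1 ⁅a, ⁅b, c⁆⁆ := by rw [Cg_iff, inv_one, one_mul]; exact h2
    have h4 := this.symm.mul (Cg.refl n ⁅b, c⁆)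
    rwa [one_mul] at h4
  refine (h3.mul (Cg.refl n ⁅a, c⁆)).trans ?_
  exact Cg_comm h1 (comm_mem_L ha hc le_rfl) (by omega)

/-- `⁅a, b * c⁆` modulo higher terms -/
lemma Cg_mul_right {i j n : ℕ} {a b c : G} (ha : a ∈ L G i) (hb : b ∈ L G j) (hc : c ∈ L G j)
    (h : n ≤ i + j + 2) : Cg n ⁅a, b * c⁆ (⁅a, b⁆ * ⁅a, c⁆) := by
  have h1 := (Cg_mul_left hc hb ha (n := n) (by omega)).inv
  rw [mul_inv_rev, commutatorElement_inv, commutatorElement_inv, commutatorElement_inv] at h1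
  refine h1.trans ?_
  exact Cg_comm (comm_mem_L ha hc le_rfl) (comm_mem_L ha hb le_rfl) (by omega)

lemma Cg_congr_left {i j n : ℕ} {a b c : G} (ha : a ∈ L G i) (hab : Cg (i + 1) a b)
    (hc : c ∈ L G j) (h : n ≤ i + j + 2) : Cg n ⁅a, c⁆ ⁅b, c⁆ := by
  have hd : a⁻¹ * b ∈ L G (i + 1) := Cg_iff.1 hab
  have e : b = a * (a⁻¹ * b) := by group
  rw [e]
  refine Cg.symm ((Cg_mul_left (L_anti (by omega) hd) ha hc h).trans ?_)
  have : Cg n ⁅a⁻¹ * b, c⁆ 1 := by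
    apply Cg.symm
    rw [Cg_iff]
    simpa using comm_mem_L hd hc (by omega)
  simpa using (Cg.refl n ⁅a, c⁆).mul this

lemma Cg_congr_right {i j n : ℕ} {a b c : G} (ha : a ∈ L G i) (hab : Cg (i + 1) a b)
    (hc : c ∈ L G j) (h : n ≤ i + j + 2) : Cg n ⁅c, a⁆ ⁅c, b⁆ := by
  have := (Cg_congr_left ha hab hc h).inv
  rwa [commutatorElement_inv, commutatorElement_inv] at this

lemma Cg_inv_left {i j n : ℕ} {a c : G} (ha : a ∈ L G i) (hc : c ∈ L G j) (h : n ≤ i + j + 2) :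
    Cg n ⁅a⁻¹, c⁆ ⁅a, c⁆⁻¹ := by
  have h1 := Cg_mul_left ha ((L G i).inv_mem ha) hc h
  rw [inv_mul_cancel, commutatorElement_one_left] at h1
  have h2 := h1.mul (Cg.refl n ⁅a, c⁆⁻¹)
  rw [one_mul, mul_assoc, mul_inv_cancel, mul_one] at h2
  exact h2.symm

lemma Cg_npow_left {i j n : ℕ} {a c : G} (ha : a ∈ L G i) (hc : c ∈ L G j) (h : n ≤ i + j + 2)
    (k : ℕ) : Cg n ⁅a ^ k, c⁆ (⁅a, c⁆ ^ k) := by
  induction k with
  | zero => simp only [pow_zero, commutatorElement_one_left]; exact Cg.refl _ _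
  | succ k ih =>
    rw [pow_succ, pow_succ]
    exact (Cg_mul_left ha (pow_mem ha k) hc h).trans (ih.mul (Cg.refl _ _))

lemma Cg_zpow_left {i j n : ℕ} {a c : G} (ha : a ∈ L G i) (hc : c ∈ L G j) (h : n ≤ i + j + 2)
    (k : ℤ) : Cg n ⁅a ^ k, c⁆ (⁅a, c⁆ ^ k) := by
  cases k with
  | ofNat k => simpa using Cg_npow_left ha hc h k
  | negSucc k =>
    rw [zpow_negSucc, zpow_negSucc]
    exact (Cg_inv_left (pow_mem ha _) hc h).trans (Cg_npow_left ha hc h _).inv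

lemma jac_aux {Q : Type*} [Group Q] (x y z : Q) (h1 : Commute ⁅x, y⁆ ⁅y, z⁆)
    (h2 : Commute ⁅x, z⁆ ⁅y, z⁆) (h3 : Commute ⁅x, y⁆ ⁅y, ⁅x, z⁆⁆) (h4 : Commute ⁅x, y⁆ ⁅x, z⁆)
    (h5 : Commute ⁅x, z⁆ ⁅⁅x, y⁆, z⁆) (h6 : Commute ⁅y, z⁆ ⁅⁅x, y⁆, z⁆)
    (h7 : Commute ⁅y, ⁅x, z⁆⁆ ⁅⁅x, y⁆, z⁆) :
    ⁅x, ⁅y, z⁆⁆ = ⁅⁅x, y⁆, z⁆ * ⁅⁅x, z⁆, y⁆⁻¹ := by
  have e0 : ⁅x, ⁅y, z⁆⁆ = ⁅x, y⁆ * (⁅y, ⁅x, z⁆⁆ * (⁅x, z⁆ * ⁅y, z⁆ * ⁅x, z⁆⁻¹)) * ⁅x, y⁆⁻¹ *
      (⁅⁅x, y⁆, ⁅x, z⁆⁆ * (⁅x, z⁆ * ⁅⁅x, y⁆, z⁆ * ⁅x, z⁆⁻¹)) * ⁅y, z⁆⁻¹ := by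
    simp only [commutatorElement_def]; group
  rw [e0, (commutatorElement_eq_one_iff_commute).2 h4, one_mul, h5.eq, h2.eq, mul_inv_cancel_right,
    mul_inv_cancel_right, ← mul_assoc, h3.eq, mul_assoc ⁅y, ⁅x, z⁆⁆, h1.eq, ← mul_assoc,
    mul_inv_cancel_right, mul_assoc _ ⁅y, z⁆ ⁅⁅x, y⁆, z⁆, h6.eq, ← mul_assoc, mul_inv_cancel_right,
    h7.eq, commutatorElement_inv]

/-- the Jacobi identity modulo higher terms -/
lemma Cg_jacobi {i j k n : ℕ} {x y z : G} (hx : x ∈ L G i) (hy : y ∈ L G j) (hz : z ∈ L G k)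
    (h : n ≤ i + j + k + 3) : Cg n ⁅x, ⁅y, z⁆⁆ (⁅⁅x, y⁆, z⁆ * ⁅⁅x, z⁆, y⁆⁻¹) := by
  have hxy : ⁅x, y⁆ ∈ L G (i + j + 1) := comm_mem_L hx hy le_rfl
  have hxz : ⁅x, z⁆ ∈ L G (i + k + 1) := comm_mem_L hx hz le_rfl
  have hyz : ⁅y, z⁆ ∈ L G (j + k + 1) := comm_mem_L hy hz le_rfl
  have h1 : ⁅y, ⁅x, z⁆⁆ ∈ L G (j + (i + k + 1) + 1) := comm_mem_L hy hxz le_rfl
  have h2 : ⁅⁅x, y⁆, z⁆ ∈ L G (i + j + 1 + k + 1) := comm_mem_L hxy hz le_rfl
  have C : ∀ {a b : G} {p q : ℕ}, a ∈ L G p → b ∈ L G q → n ≤ p + q + 1 →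
      Commute (QuotientGroup.mk' (L G n) a) (QuotientGroup.mk' (L G n) b) := by
    intro a b p q ha hb hpq
    exact commute_mk _ (comm_mem_L ha hb hpq)
  unfold Cg
  rw [map_mul, map_inv]
  simp only [map_commutatorElement]
  have c1 := C hxy hyz (by omega)
  have c2 := C hxz hyz (by omega)
  have c3 := C hxy h1 (by omega)
  have c4 := C hxy hxz (by omega)
  have c5 := C hxz h2 (by omega)
  have c6 := C hyz h2 (by omega)
  have c7 := C h1 h2 (by omega)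
  simp only [map_commutatorElement] at c1 c2 c3 c4 c5 c6 c7
  exact jac_aux _ _ _ c1 c2 c3 c4 c5 c6 c7

/-- left normed commutator starting with `X` -/
def bl (y : ℕ → G) (Z : G) (o : List ℕ) : G := o.foldl (fun g i => ⁅g, y i⁆) Z

lemma bl_mem (y : ℕ → G) {a : ℕ} {Z : G} (hZ : Z ∈ L G a) (o : List ℕ) :
    bl y Z o ∈ L G (a + o.length) := by
  induction o generalizing a Z with
  | nil => exact hZ
  | cons i o ih =>
    have h1 : ⁅Z, y i⁆ ∈ L G (a + 1) := comm_mem_L (j := 0) hZ (Subgroup.mem_top _) (by omega)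
    have h2 := ih h1
    rw [List.length_cons]
    have e : a + (o.length + 1) = a + 1 + o.length := by omega
    rw [e]
    exact h2

lemma bl_snoc (y : ℕ → G) (Z : G) (o : List ℕ) (z : ℕ) : bl y Z (o ++ [z]) = ⁅bl y Z o, y z⁆ := by
  simp [bl]

lemma bl_cons (y : ℕ → G) (Z : G) (o : List ℕ) (z : ℕ) : bl y Z (z :: o) = bl y ⁅Z, y z⁆ o := rfl

lemma er_mem (y : ℕ → G) (x : ℕ) (r : List ℕ) : er y (x :: r) ∈ L G r.length := by
  induction r generalizing x with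
  | nil => exact Subgroup.mem_top _
  | cons z r ih =>
    rw [List.length_cons]
    exact comm_mem_L (i := r.length) (j := 0) (ih z) (Subgroup.mem_top _) (by omega)

lemma er_bl (y : ℕ → G) (x : ℕ) (r o : List ℕ) :
    bl y (er y (x :: r)) o = er y (o.reverse ++ x :: r) := by
  induction o generalizing x r with
  | nil => rfl
  | cons z o ih =>
    have h := ih z (x :: r)
    rw [bl_cons]
    have e : ⁅er y (x :: r), y z⁆ = er y (z :: x :: r) := rfl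
    rw [e, h]
    simp

/-- formal expansion of a bracket with a left normed commutator -/
def adr : List ℕ → List (ℤ × List ℕ)
  | [] => []
  | [x] => [(1, [x])]
  | z :: x :: r => (adr (x :: r)).map (fun q => (q.1, q.2 ++ [z])) ++
      (adr (x :: r)).map (fun q => (-q.1, z :: q.2))

lemma adr_len (x : ℕ) (r : List ℕ) : ∀ q ∈ adr (x :: r), q.2.length = r.length + 1 := by
  induction r generalizing x with
  | nil => intro q hq; simp [adr] at hq; subst hq; rfl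
  | cons z r ih =>
    intro q hq
    simp only [adr, List.mem_append, List.mem_map] at hq
    rcases hq with ⟨p, hp, rfl⟩ | ⟨p, hp, rfl⟩ <;> simp [ih z p hp]

/-- evaluation of a formal expansion -/
def PP (y : ℕ → G) (Z : G) (D : List (ℤ × List ℕ)) : G := (D.map (fun q => (bl y Z q.2) ^ q.1)).prod

lemma PP_mem (y : ℕ → G) {a k : ℕ} {Z : G} (hZ : Z ∈ L G a) {D : List (ℤ × List ℕ)}
    (hD : ∀ q ∈ D, q.2.length = k) : PP y Z D ∈ L G (a + k) := by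
  unfold PP
  apply Subgroup.list_prod_mem
  intro g hg
  rw [List.mem_map] at hg
  obtain ⟨q, hq, rfl⟩ := hg
  have := bl_mem y hZ q.2
  rw [hD q hq] at this
  exact Subgroup.zpow_mem _ this _

lemma PP_cons (y : ℕ → G) (Z : G) (q : ℤ × List ℕ) (D : List (ℤ × List ℕ)) :
    PP y Z (q :: D) = (bl y Z q.2) ^ q.1 * PP y Z D := by simp [PP]

lemma PP_append (y : ℕ → G) (Z : G) (D E : List (ℤ × List ℕ)) :
    PP y Z (D ++ E) = PP y Z D * PP y Z E := by simp [PP]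

/-- bracket on the right with a generator -/
lemma PP_snoc (y : ℕ → G) {a k n : ℕ} {Z : G} (hZ : Z ∈ L G a) {D : List (ℤ × List ℕ)}
    (hD : ∀ q ∈ D, q.2.length = k) (z : ℕ) (h : n ≤ a + k + 2) :
    Cg n ⁅PP y Z D, y z⁆ (PP y Z (D.map (fun q => (q.1, q.2 ++ [z])))) := by
  induction D with
  | nil => simp only [PP, List.map_nil, List.prod_nil, commutatorElement_one_left]; exact Cg.refl _ _
  | cons q D ih =>
    have ih' := ih (fun q hq => hD q (List.mem_cons_of_mem _ hq))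
    have h1 := bl_mem y hZ q.2
    rw [hD q List.mem_cons_self] at h1
    have h2 : PP y Z D ∈ L G (a + k) := PP_mem y hZ (fun q hq => hD q (List.mem_cons_of_mem _ hq))
    rw [PP_cons, List.map_cons, PP_cons, bl_snoc]
    refine (Cg_mul_left (j := 0) h2 (Subgroup.zpow_mem _ h1 _) (Subgroup.mem_top _)
      (by omega)).trans ?_
    exact (Cg_zpow_left (j := 0) h1 (Subgroup.mem_top _) (by omega) _).mul ih'

lemma PP_neg (y : ℕ → G) {a k n : ℕ} {Z : G} (hZ : Z ∈ L G a) {D : List (ℤ × List ℕ)}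
    (hD : ∀ q ∈ D, q.2.length = k) (h : n ≤ a + k + 1) :
    Cg n (PP y Z D)⁻¹ (PP y Z (D.map (fun q => (-q.1, q.2)))) := by
  induction D with
  | nil => simp only [PP, List.map_nil, List.prod_nil, inv_one]; exact Cg.refl _ _
  | cons q D ih =>
    have ih' := ih (fun q hq => hD q (List.mem_cons_of_mem _ hq))
    have h1 := bl_mem y hZ q.2
    rw [hD q List.mem_cons_self] at h1
    have h2 : PP y Z D ∈ L G (a + k) := PP_mem y hZ (fun q hq => hD q (List.mem_cons_of_mem _ hq))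
    rw [PP_cons, List.map_cons, PP_cons, mul_inv_rev, zpow_neg]
    refine (Cg_comm (Subgroup.inv_mem _ h2) (Subgroup.inv_mem _ (Subgroup.zpow_mem _ h1 _))
      (by omega)).trans ?_
    exact (Cg.refl _ _).mul ih'

lemma PP_front (y : ℕ → G) (Z : G) (D : List (ℤ × List ℕ)) (z : ℕ) :
    PP y ⁅Z, y z⁆ (D.map (fun q => (-q.1, q.2))) = PP y Z (D.map (fun q => (-q.1, z :: q.2))) := by
  simp only [PP, List.map_map]
  rfl

/-- the expansion formula -/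
lemma expand (y : ℕ → G) (x : ℕ) (r : List ℕ) {a n : ℕ} {Z : G} (hZ : Z ∈ L G a)
    (h : n ≤ a + r.length + 2) : Cg n ⁅Z, er y (x :: r)⁆ (PP y Z (adr (x :: r))) := by
  induction r generalizing x a n Z with
  | nil => simp only [er, adr, PP, List.map_cons, List.map_nil, List.prod_cons, List.prod_nil,
      mul_one, zpow_one]; exact Cg.refl _ _
  | cons z r ih =>
    rw [List.length_cons] at h
    have hZx : ⁅Z, y x⁆ ∈ L G (a + 1) := comm_mem_L (j := 0) hZ (Subgroup.mem_top _) (by omega)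
    have hb := er_mem y z r
    have e : er y (x :: z :: r) = ⁅er y (z :: r), y x⁆ := rfl
    rw [e]
    refine (Cg_jacobi (k := 0) hZ hb (Subgroup.mem_top _) (n := n) (by omega)).trans ?_
    have e2 : PP y Z (adr (x :: z :: r)) = PP y Z ((adr (z :: r)).map (fun q => (q.1, q.2 ++ [x]))) *
        PP y Z ((adr (z :: r)).map (fun q => (-q.1, x :: q.2))) := by
      rw [← PP_append]; rfl
    rw [e2]
    have hlen := adr_len z r
    apply Cg.mul
    · have h1 : Cg (a + r.length + 2) ⁅Z, er y (z :: r)⁆ (PP y Z (adr (z :: r))) := ih z hZ le_rfl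
      have h2 : ⁅Z, er y (z :: r)⁆ ∈ L G (a + r.length + 1) := comm_mem_L hZ hb le_rfl
      refine (Cg_congr_left (j := 0) h2 h1 (Subgroup.mem_top _) (n := n) (by omega)).trans ?_
      exact PP_snoc y hZ hlen x (by omega)
    · have h1 : Cg n ⁅⁅Z, y x⁆, er y (z :: r)⁆ (PP y ⁅Z, y x⁆ (adr (z :: r))) :=
        ih z hZx (by omega)
      refine h1.inv.trans ?_
      rw [← PP_front]
      exact PP_neg y hZx hlen (by omega)

end calc_

end Pool.Agent.Helper429
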