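import Mathlib
import Pool.Agent.Helper429.Calc

set_option autoImplicit false

namespace Pool.Agent.Helper429

open scoped commutatorElement

section rel_

variable {G : Type*} [Group G]

/-- evaluation of a formal combination of left normed commutators -/
def evP (y : ℕ → G) (D : List (ℤ × List ℕ)) : G := (D.map (fun q => (er y q.2) ^ q.1)).prod

lemma evP_cons (y : ℕ → G) (q : ℤ × List ℕ) (D : List (ℤ × List ℕ)) :
    evP y (q :: D) = (er y q.2) ^ q.1 * evP y D := by simp [evP]

lemma evP_append (y : ℕ → G) (D E : List (ℤ × List ℕ)) :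
    evP y (D ++ E) = evP y D * evP y E := by simp [evP]

lemma Cg_eq (h7 : L G 7 = ⊥) {a b : G} (h : Cg 7 a b) : a = b := by
  have h1 := Cg_iff.1 h
  rw [h7, Subgroup.mem_bot] at h1
  rw [inv_mul_eq_one] at h1
  exact h1

lemma L6_comm (h7 : L G 7 = ⊥) {a : G} (ha : a ∈ L G 6) (b : G) : Commute a b := by
  have h1 : ⁅a, b⁆ ∈ L G 7 := comm_mem_L (j := 0) ha (Subgroup.mem_top _) (by omega)
  rw [h7, Subgroup.mem_bot] at h1
  exact commutatorElement_eq_one_iff_commute.1 h1

lemma er_mem' (y : ℕ → G) {r : List ℕ} {n : ℕ} (h : r.length = n + 1) : er y r ∈ L G n := by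
  cases r with
  | nil => simp at h
  | cons x r =>
    have := er_mem y x r
    simp only [List.length_cons, Nat.add_right_cancel_iff] at h
    rwa [h] at this

lemma evP_mem (y : ℕ → G) {n : ℕ} {D : List (ℤ × List ℕ)} (hD : ∀ q ∈ D, q.2.length = n + 1) :
    evP y D ∈ L G n := by
  unfold evP
  apply Subgroup.list_prod_mem
  intro g hg
  rw [List.mem_map] at hg
  obtain ⟨q, hq, rfl⟩ := hg
  exact Subgroup.zpow_mem _ (er_mem' y (hD q hq)) _

lemma evP_scale (h7 : L G 7 = ⊥) (y : ℕ → G) (c : ℤ) {D : List (ℤ × List ℕ)}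
    (hD : ∀ q ∈ D, q.2.length = 7) : evP y (D.map (fun q => (c * q.1, q.2))) = (evP y D) ^ c := by
  induction D with
  | nil => simp [evP]
  | cons q D ih =>
    have ih' := ih (fun q hq => hD q (List.mem_cons_of_mem _ hq))
    rw [List.map_cons, evP_cons, evP_cons, ih']
    have h1 : er y q.2 ^ q.1 ∈ L G 6 :=
      Subgroup.zpow_mem _ (er_mem' y (hD q List.mem_cons_self)) _
    rw [(L6_comm h7 h1 _).mul_zpow, ← zpow_mul, mul_comm]

lemma evP_perm (h7 : L G 7 = ⊥) (y : ℕ → G) {D E : List (ℤ × List ℕ)}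
    (hD : ∀ q ∈ D, q.2.length = 7) (h : D.Perm E) : evP y D = evP y E := by
  unfold evP
  apply List.Perm.prod_eq' (h.map _)
  rw [List.pairwise_map]
  apply List.pairwise_of_forall_mem_list
  intro p hp q hq
  exact L6_comm h7 (Subgroup.zpow_mem _ (er_mem' y (hD p hp)) _) _

lemma adr_len' {r : List ℕ} {n : ℕ} (h : r.length = n + 1) : ∀ q ∈ adr r, q.2.length = n + 1 := by
  cases r with
  | nil => simp at h
  | cons x r => intro q hq; rw [adr_len x r q hq]; exact h

lemma bracket_eq (h7 : L G 7 = ⊥) (y : ℕ → G) {u v : List ℕ} {a b : ℕ} (hu : u.length = a + 1)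
    (hv : v.length = b + 1) (hab : a + b = 5) :
    ⁅er y u, er y v⁆ = evP y ((adr v).map (fun q => (q.1, q.2.reverse ++ u))) := by
  cases u with
  | nil => simp at hu
  | cons x r =>
    cases v with
    | nil => simp at hv
    | cons x' r' =>
      have h1 := er_mem y x r
      simp only [List.length_cons, Nat.add_right_cancel_iff] at hu hv
      have h2 := Cg_eq h7 (expand y x' r' h1 (n := 7) (by omega))
      rw [h2]
      unfold PP evP
      rw [List.map_map]
      congr 1
      apply List.map_congr_left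
      intro q hq
      simp only [Function.comp]
      rw [er_bl]

/-- the list attached to a relation -/
def Rl (t : ℤ × List ℕ × List ℕ) : List (ℤ × List ℕ) :=
  ((adr t.2.2).map (fun q => (q.1, q.2.reverse ++ t.2.1)) ++
    (adr t.2.1).map (fun q => (q.1, q.2.reverse ++ t.2.2))).map (fun q => (t.1 * q.1, q.2))

lemma evP_Rl (h7 : L G 7 = ⊥) (y : ℕ → G) {t : ℤ × List ℕ × List ℕ} (h1 : t.2.1.length = 3)
    (h2 : t.2.2.length = 4) : evP y (Rl t) = 1 := by
  unfold Rl
  rw [evP_scale h7, evP_append, ← bracket_eq h7 y (a := 2) (b := 3) h1 h2 rfl,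
    ← bracket_eq h7 y (a := 3) (b := 2) h2 h1 rfl, ← commutatorElement_inv, inv_mul_cancel,
    one_zpow]
  intro q hq
  rw [List.mem_append, List.mem_map, List.mem_map] at hq
  rcases hq with ⟨p, hp, rfl⟩ | ⟨p, hp, rfl⟩
  · have := adr_len' (n := 3) h2 p hp
    simp [this, h1]
  · have := adr_len' (n := 2) h1 p hp
    simp [this, h2]

lemma evP_flatMap (h7 : L G 7 = ⊥) (y : ℕ → G) (R : List (ℤ × List ℕ × List ℕ))
    (hR : ∀ t ∈ R, t.2.1.length = 3 ∧ t.2.2.length = 4) : evP y (R.flatMap Rl) = 1 := by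
  induction R with
  | nil => simp [evP]
  | cons t R ih =>
    rw [List.flatMap_cons, evP_append, ih (fun t ht => hR t (List.mem_cons_of_mem _ ht)),
      evP_Rl h7 y (hR t List.mem_cons_self).1 (hR t List.mem_cons_self).2, one_mul]

/-- relabelling which skips `i` -/
def dl (i j : ℕ) : ℕ := if j < i then j else j + 1

def lft (i : ℕ) (D : List (ℤ × List ℕ)) : List (ℤ × List ℕ) :=
  D.map (fun q => (q.1, i :: q.2.map (dl i)))

def Kall : List (ℤ × List ℕ) :=
  lft 0 kap0 ++ lft 1 kap1 ++ lft 2 kap2 ++ lft 3 kap3 ++ lft 4 kap4 ++ lft 5 kap5 ++ lft 6 kap6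

lemma perm_Kall : (relData.flatMap Rl).Perm Kall := by
  have h : ((relData.flatMap Rl).isPerm Kall) = true := by decide +kernel
  exact List.isPerm_iff.1 h

lemma rel_len : ∀ t ∈ relData, t.2.1.length = 3 ∧ t.2.2.length = 4 := by decide +kernel

lemma rel_len' : ∀ q ∈ relData.flatMap Rl, q.2.length = 7 := by decide +kernel

lemma lift_er (y : ℕ → G) (r : List ℕ) : FreeGroup.lift y (er FreeGroup.of r) = er y r := by
  rw [map_er]
  simp

lemma evP_lft (h7 : L G 7 = ⊥) (y : ℕ → G) (i : ℕ) {D : List (ℤ × List ℕ)}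
    (hD : ∀ q ∈ D, q.2.length = 6) :
    evP y (lft i D) = ⁅FreeGroup.lift (fun j => y (dl i j)) (kapW D), y i⁆ := by
  induction D with
  | nil => simp [evP, lft, kapW]
  | cons q D ih =>
    have ih' := ih (fun q hq => hD q (List.mem_cons_of_mem _ hq))
    have e1 : lft i (q :: D) = (q.1, i :: q.2.map (dl i)) :: lft i D := rfl
    have e2 : kapW (q :: D) = (er FreeGroup.of q.2) ^ q.1 * kapW D := by simp [kapW]
    rw [e1, evP_cons, ih', e2, map_mul, map_zpow, lift_er]
    have h6 := hD q List.mem_cons_self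
    have h1 : er (fun j => y (dl i j)) q.2 ∈ L G 5 := er_mem' _ h6
    have h2 : FreeGroup.lift (fun j => y (dl i j)) (kapW D) ∈ L G 5 := by
      have : FreeGroup.lift (fun j => y (dl i j)) (kapW D) = evP (fun j => y (dl i j)) D := by
        unfold kapW evP
        rw [map_list_prod, List.map_map]
        congr 1
        apply List.map_congr_left
        intro q _
        simp only [Function.comp, map_zpow, lift_er]
      rw [this]
      exact evP_mem _ (fun q hq => hD q (List.mem_cons_of_mem _ hq))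
    have h3 := Cg_eq h7 (Cg_mul_left (j := 0) (n := 7) h2 (Subgroup.zpow_mem _ h1 q.1)
      (Subgroup.mem_top (y i)) (by omega))
    have h4 := Cg_eq h7 (Cg_zpow_left (j := 0) (n := 7) h1 (Subgroup.mem_top (y i)) (by omega) q.1)
    rw [h3, h4]
    congr 2
    have h5 : (q.2.map (dl i)) ≠ [] := by
      intro h
      rw [List.map_eq_nil_iff] at h
      rw [h] at h6
      simp at h6
    obtain ⟨x, r, hx⟩ := List.exists_cons_of_ne_nil h5
    simp only [hx]
    have : er y (i :: x :: r) = ⁅er y (x :: r), y i⁆ := rfl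
    rw [this, ← hx, er_map]

lemma main_rel (h7 : L G 7 = ⊥) (y : ℕ → G)
    (h0 : ⁅FreeGroup.lift (fun j => y (dl 0 j)) (kapW kap0), y 0⁆ = 1)
    (h1 : ⁅FreeGroup.lift (fun j => y (dl 1 j)) (kapW kap1), y 1⁆ = 1)
    (h2 : ⁅FreeGroup.lift (fun j => y (dl 2 j)) (kapW kap2), y 2⁆ = 1)
    (h3 : ⁅FreeGroup.lift (fun j => y (dl 3 j)) (kapW kap3), y 3⁆ = 1)
    (h4 : ⁅FreeGroup.lift (fun j => y (dl 4 j)) (kapW kap4), y 4⁆ = 1)
    (h5 : ⁅FreeGroup.lift (fun j => y (dl 5 j)) (kapW kap5), y 5⁆ = 1) :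
    ⁅FreeGroup.lift (fun j => y (dl 6 j)) (kapW kap6), y 6⁆ = 1 := by
  have h := evP_perm h7 y rel_len' perm_Kall
  rw [evP_flatMap h7 y relData rel_len] at h
  have ok : ∀ {D : List (ℤ × List ℕ)}, okD D = true → ∀ q ∈ D, q.2.length = 6 :=
    fun hD q hq => (okD_spec hD q hq).1
  unfold Kall at h
  rw [evP_append, evP_append, evP_append, evP_append, evP_append, evP_append,
    evP_lft h7 y 0 (ok okD0), evP_lft h7 y 1 (ok okD1), evP_lft h7 y 2 (ok okD2),
    evP_lft h7 y 3 (ok okD3), evP_lft h7 y 4 (ok okD4), evP_lft h7 y 5 (ok okD5),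
    evP_lft h7 y 6 (ok okD6), h0, h1, h2, h3, h4, h5] at h
  simpa using h.symm

end rel_

end Pool.Agent.Helper429
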