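import Mathlib
import Pool.Agent.Helper429.Rel

set_option autoImplicit false

namespace Pool.Agent.Helper429

open scoped commutatorElement

lemma L_mem_NN (n : ℕ) (f : ℕ → U) (hf : ∀ x, Uni (f x)) :
    ∀ g ∈ L (FreeGroup ℕ) n, ((FreeGroup.lift f g : U) : Mat) - 1 ∈ NN (n + 1) := by
  induction n with
  | zero => intro g _; exact (Uni.lift hf g).1
  | succ n ih =>
    intro g hg
    have hle : L (FreeGroup ℕ) (n + 1) ≤
        (⟨⟨⟨{g | ((FreeGroup.lift f g : U) : Mat) - 1 ∈ NN (n + 1 + 1)}, by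
          intro a b ha hb
          simp only [Set.mem_ofPred_eq] at *
          rw [map_mul]; exact mul_mem_NN ha hb⟩, by
          simp only [Set.mem_ofPred_eq, map_one, Units.val_one, sub_self]
          exact (NN _).zero_mem⟩, by
          intro a ha
          simp only [Set.mem_ofPred_eq] at *
          rw [map_inv]; exact inv_mem_NN (Uni.lift hf a) ha⟩ : Subgroup (FreeGroup ℕ)) := by
      change ⁅L (FreeGroup ℕ) n, ⊤⁆ ≤ _
      rw [Subgroup.commutator_le]
      intro a ha b _
      change ((FreeGroup.lift f ⁅a, b⁆ : U) : Mat) - 1 ∈ NN (n + 1 + 1)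
      rw [map_commutatorElement]
      exact comm_mem_NN (Uni.lift hf a) (Uni.lift hf b) (ih a ha) (Uni.lift hf b).1
    exact hle hg

lemma L6_le : L (FreeGroup ℕ) 6 ≤ SG := by
  intro g hg
  rw [mem_SG']
  intro F
  have h := L_mem_NN 6 (fU F) (fU_uni F) g hg
  have h0 := NN_seven (le_refl 7) h
  rw [h0]
  exact ⟨(NN 6).zero_mem, by rw [ent_zero, Phi_zero]⟩

instance : SG.Normal where
  conj_mem g hg n := by
    have := SG_map hg (MulAut.conj n).toMonoidHom
    simpa using this

/-- the commutator subgroup with the whole group -/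
abbrev SC : Subgroup (FreeGroup ℕ) := ⁅SG, (⊤ : Subgroup (FreeGroup ℕ))⁆

lemma SC_map {g : FreeGroup ℕ} (hg : g ∈ SC) (φ : FreeGroup ℕ →* FreeGroup ℕ) : φ g ∈ SC := by
  have h : SC ≤ SC.comap φ := by
    rw [Subgroup.commutator_le]
    intro a ha b _
    rw [Subgroup.mem_comap, map_commutatorElement]
    exact Subgroup.commutator_mem_commutator (SG_map ha φ) (Subgroup.mem_top _)
  exact h hg

lemma SC_le : SC ≤ SG := Subgroup.commutator_le_left _ _

lemma LH : L (FreeGroup ℕ ⧸ SC) 7 = ⊥ := by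
  have h1 : L (FreeGroup ℕ) 7 ≤ SC := Subgroup.commutator_mono L6_le le_rfl
  have h2 := Subgroup.map_lowerCentralSeries (⊤ : Subgroup (FreeGroup ℕ)) (QuotientGroup.mk' SC) 7
  rw [Subgroup.map_top_of_surjective _ (QuotientGroup.mk'_surjective SC)] at h2
  rw [L, ← h2, Subgroup.map_eq_bot_iff, QuotientGroup.ker_mk']
  exact h1

lemma mk_comm_one {a b : FreeGroup ℕ} (ha : a ∈ SG) :
    (⁅QuotientGroup.mk' SC a, QuotientGroup.mk' SC b⁆) = 1 := by
  rw [← map_commutatorElement]
  exact (QuotientGroup.eq_one_iff _).2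
    (Subgroup.commutator_mem_commutator ha (Subgroup.mem_top _))

lemma lift_mk (y : ℕ → FreeGroup ℕ) (g : FreeGroup ℕ) :
    FreeGroup.lift (fun j => QuotientGroup.mk' SC (y j)) g =
      QuotientGroup.mk' SC (FreeGroup.lift y g) := by
  have : FreeGroup.lift (fun j => QuotientGroup.mk' SC (y j)) =
      (QuotientGroup.mk' SC).comp (FreeGroup.lift y) := by
    apply FreeGroup.ext_hom
    intro x
    simp
  rw [this]; rfl

lemma kap_term {D : List (ℤ × List ℕ)} (h : kapW D ∈ SG) (i : ℕ) :
    ⁅FreeGroup.lift (fun j => QuotientGroup.mk' SC (FreeGroup.of (dl i j))) (kapW D),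
      QuotientGroup.mk' SC (FreeGroup.of i)⁆ = 1 := by
  rw [lift_mk (fun j => FreeGroup.of (dl i j))]
  exact mk_comm_one (SG_map h _)

lemma SG_map_div {a b : FreeGroup ℕ} (h : a * b⁻¹ ∈ SG) (φ : FreeGroup ℕ →* FreeGroup ℕ)
    (hb : φ b = b) : φ a * b⁻¹ ∈ SG := by
  have h1 := SG_map h φ
  rwa [map_mul, map_inv, hb] at h1

lemma comm_of_div {a b c : FreeGroup ℕ} (h1 : a * b⁻¹ ∈ SG)
    (h : ⁅QuotientGroup.mk' SC a, QuotientGroup.mk' SC c⁆ = 1) : ⁅b, c⁆ ∈ SC := by
  have h3 : Commute (QuotientGroup.mk' SC a) (QuotientGroup.mk' SC c) :=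
    commutatorElement_eq_one_iff_commute.1 h
  have h4 : Commute (QuotientGroup.mk' SC (a * b⁻¹)) (QuotientGroup.mk' SC c) :=
    commutatorElement_eq_one_iff_commute.1 (mk_comm_one h1)
  have h5 : Commute (QuotientGroup.mk' SC b) (QuotientGroup.mk' SC c) := by
    have e : QuotientGroup.mk' SC b = (QuotientGroup.mk' SC (a * b⁻¹))⁻¹ * QuotientGroup.mk' SC a := by
      rw [← map_inv, ← map_mul]
      congr 1
      group
    rw [e]
    exact h4.inv_left.mul_left h3
  have h6 := commutatorElement_eq_one_iff_commute.2 h5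
  rw [← map_commutatorElement] at h6
  exact (QuotientGroup.eq_one_iff _).1 h6

lemma wrd_six : ⁅wrd, FreeGroup.of 6⁆ ∈ SC := by
  have h := main_rel LH (fun j => QuotientGroup.mk' SC (FreeGroup.of j))
    (kap_term kap0_mem 0) (kap_term kap1_mem 1) (kap_term kap2_mem 2) (kap_term kap3_mem 3)
    (kap_term kap4_mem 4) (kap_term kap5_mem 5)
  rw [lift_mk (fun j => FreeGroup.of (dl 6 j))] at h
  have h2 : FreeGroup.lift (fun j => FreeGroup.of (dl 6 j)) wrd = wrd := by
    unfold wrd
    simp only [map_commutatorElement, FreeGroup.lift_apply_of]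
    rfl
  exact comm_of_div (SG_map_div kap6_mem _ h2) h

/-- the commutators of the word with all elements lie in the commutator subgroup -/
lemma wrd_comm (g : FreeGroup ℕ) : ⁅wrd, g⁆ ∈ SC := by
  have h := SC_map wrd_six (FreeGroup.lift (fun j => if j < 6 then FreeGroup.of j else g))
  rw [map_commutatorElement] at h
  have h2 : FreeGroup.lift (fun j => if j < 6 then FreeGroup.of j else g) wrd = wrd := by
    unfold wrd
    simp only [map_commutatorElement, FreeGroup.lift_apply_of]
    rfl
  rw [h2, FreeGroup.lift_apply_of] at h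
  simpa using h

/-- elements which are central modulo the commutator subgroup -/
def cent : Subgroup (FreeGroup ℕ) where
  carrier := {g | ∀ x, ⁅g, x⁆ ∈ SC}
  one_mem' := by intro x; rw [commutatorElement_one_left]; exact SC.one_mem
  mul_mem' := by
    intro a b ha hb x
    have ha' : Commute (QuotientGroup.mk' SC a) (QuotientGroup.mk' SC x) := commute_mk _ (ha x)
    have hb' : Commute (QuotientGroup.mk' SC b) (QuotientGroup.mk' SC x) := commute_mk _ (hb x)
    have h := commutatorElement_eq_one_iff_commute.2 (ha'.mul_left hb')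
    rw [← map_mul, ← map_commutatorElement] at h
    exact (QuotientGroup.eq_one_iff _).1 h
  inv_mem' := by
    intro a ha x
    have ha' : Commute (QuotientGroup.mk' SC a) (QuotientGroup.mk' SC x) := commute_mk _ (ha x)
    have h := commutatorElement_eq_one_iff_commute.2 ha'.inv_left
    rw [← map_inv, ← map_commutatorElement] at h
    exact (QuotientGroup.eq_one_iff _).1 h

lemma mem_cent {g : FreeGroup ℕ} : g ∈ cent ↔ ∀ x, ⁅g, x⁆ ∈ SC := Iff.rfl

lemma SG_le_cent : SG ≤ cent := fun _ hg x =>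
  Subgroup.commutator_mem_commutator hg (Subgroup.mem_top x)

lemma wrd_cent : wrd ∈ cent := wrd_comm

/-- invariance under automorphism-like pairs -/
lemma cent_ren {g : FreeGroup ℕ} (hg : g ∈ cent) (φ ψ : FreeGroup ℕ →* FreeGroup ℕ)
    (h : ∀ x, φ (ψ x) = x) : φ g ∈ cent := by
  intro x
  have h1 := SC_map (hg (ψ x)) φ
  rw [map_commutatorElement, h] at h1
  exact h1

end Pool.Agent.Helper429
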