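import Mathlib
import Pool.Agent.Helper429.Cent

set_option autoImplicit false

namespace Pool.Agent.Helper429

open scoped commutatorElement

/-- the multilinear form attached to a function on permutations -/
def Psi (κ : Equiv.Perm (Fin 6) → ZMod 3) :
    MultilinearMap (ZMod 3) (fun _ : Fin 6 => V6) (ZMod 3) :=
  ∑ τ : Equiv.Perm (Fin 6), (sg τ * κ τ) •
    (MultilinearMap.mkPiAlgebra (ZMod 3) (Fin 6) (ZMod 3)).compLinearMap
      (fun x => (LinearMap.proj (τ x) : V6 →ₗ[ZMod 3] ZMod 3))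

lemma Psi_apply (κ : Equiv.Perm (Fin 6) → ZMod 3) (v : Fin 6 → V6) :
    Psi κ v = ∑ τ : Equiv.Perm (Fin 6), sg τ * (∏ x : Fin 6, v x (τ x)) * κ τ := by
  unfold Psi
  rw [_root_.sum_apply]
  apply Finset.sum_congr rfl
  intro τ _
  rw [_root_.smul_apply, MultilinearMap.compLinearMap_apply,
    MultilinearMap.mkPiAlgebra_apply]
  simp only [LinearMap.proj_apply, smul_eq_mul]
  ring

lemma Psi_basis (κ : Equiv.Perm (Fin 6) → ZMod 3) (σ : Equiv.Perm (Fin 6)) :
    Psi κ (fun x => Pi.single (σ x) 1) = sg σ * κ σ := by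
  rw [Psi_apply, Finset.sum_eq_single σ]
  · simp
  · intro τ _ hτ
    have : ∃ x, τ x ≠ σ x := by
      by_contra hcon
      push Not at hcon
      exact hτ (Equiv.ext hcon)
    obtain ⟨x, hx⟩ := this
    rw [Finset.prod_eq_zero (Finset.mem_univ x) (by simp [hx])]
    simp
  · intro h
    exact absurd (Finset.mem_univ _) h

lemma sg_ne (σ : Equiv.Perm (Fin 6)) : sg σ * sg σ = 1 := by
  unfold sg
  rcases Int.units_eq_one_or (Equiv.Perm.sign σ) with h | h <;> simp [h]

lemma kappa_const (κ : Equiv.Perm (Fin 6) → ZMod 3)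
    (h : ∀ v : Fin 6 → V6, ∀ a b : Fin 6, v a = v b → a ≠ b → Psi κ v = 0)
    (σ : Equiv.Perm (Fin 6)) : κ σ = κ 1 := by
  obtain ⟨A, hA⟩ : ∃ A : V6 [⋀^Fin 6]→ₗ[ZMod 3] (ZMod 3), ∀ v, A v = Psi κ v :=
    ⟨{ Psi κ with map_eq_zero_of_eq' := fun v a b hv hab => h v a b hv hab }, fun v => rfl⟩
  have h1 : A ((fun x : Fin 6 => (Pi.single x 1 : V6)) ∘ σ) =
    Equiv.Perm.sign σ • A (fun x : Fin 6 => (Pi.single x 1 : V6)) := A.map_perm _ σ
  have e1 : A ((fun x : Fin 6 => (Pi.single x 1 : V6)) ∘ σ) = sg σ * κ σ := by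
    rw [hA, ← Psi_basis κ σ]
    congr 1
  have e2 : A (fun x : Fin 6 => (Pi.single x 1 : V6)) = sg 1 * κ 1 := by
    rw [hA, ← Psi_basis κ 1]
    congr 1
  have h2 : sg σ * κ σ = sg σ * κ 1 := by
    rw [← e1, h1, e2]
    have : sg 1 = 1 := by simp [sg]
    rw [this, one_mul, Units.smul_def, zsmul_eq_mul]
  have h3 := congrArg (fun z => sg σ * z) h2
  simp only [← mul_assoc, sg_ne, one_mul] at h3
  exact h3

/-- the determinant vanishes on vectors spanned by five vectors -/
lemma det_zero (v : Fin 6 → V6) (u : Fin 5 → V6)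
    (h : ∀ x, v x ∈ Submodule.span (ZMod 3) (Set.range u)) (c : ZMod 3) :
    Psi (fun _ => c) v = 0 := by
  have hdep : ¬ LinearIndependent (ZMod 3) v := by
    intro hli
    have h1 : Module.finrank (ZMod 3) (Submodule.span (ZMod 3) (Set.range v)) = 6 := by
      rw [finrank_span_eq_card hli]; rfl
    have h2 : Submodule.span (ZMod 3) (Set.range v) ≤ Submodule.span (ZMod 3) (Set.range u) := by
      rw [Submodule.span_le]
      rintro _ ⟨x, rfl⟩
      exact h x
    have h3 := Submodule.finrank_mono h2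
    have h4 : Module.finrank (ZMod 3) (Submodule.span (ZMod 3) (Set.range u)) ≤ 5 := by
      have h4 := finrank_range_le_card (R := ZMod 3) u
      unfold Set.finrank at h4
      simpa using h4
    omega
  have h6 : Matrix.det (Matrix.of v) = 0 := by
    by_contra hne
    apply hdep
    have h5 : IsUnit (Matrix.of v) := by
      rw [Matrix.isUnit_iff_isUnit_det]
      exact IsUnit.mk0 _ hne
    exact Matrix.linearIndependent_rows_of_isUnit h5
  rw [Psi_apply]
  rw [← Matrix.det_transpose, Matrix.det_apply] at h6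
  have h7 : (∑ τ : Equiv.Perm (Fin 6), sg τ * (∏ x : Fin 6, v x (τ x)) * c) =
      (∑ τ : Equiv.Perm (Fin 6), Equiv.Perm.sign τ • ∏ x : Fin 6, (Matrix.of v).transpose (τ x) x)
        * c := by
    rw [Finset.sum_mul]
    apply Finset.sum_congr rfl
    intro τ _
    rw [Units.smul_def, zsmul_eq_mul]
    rfl
  rw [h7, h6, zero_mul]

/-- tuples which factor through the free group of rank five -/
def Fac (F : ℕ → GG) : Prop :=
  ∃ (φ : FreeGroup ℕ →* FreeGroup (Fin 5)) (ψ : FreeGroup (Fin 5) →* GG),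
    ∀ x, F x = ψ (φ (FreeGroup.of x))

/-- laws on tuples which factor through the free group of rank five -/
def RR : Subgroup (FreeGroup ℕ) where
  carrier := {g | ∀ F : ℕ → GG, Fac F → FreeGroup.lift F g ∈ HH}
  one_mem' := by intro F _; rw [map_one]; exact HH.one_mem
  mul_mem' := by intro a b ha hb F hF; rw [map_mul]; exact HH.mul_mem (ha F hF) (hb F hF)
  inv_mem' := by intro a ha F hF; rw [map_inv]; exact HH.inv_mem (ha F hF)

lemma mem_RR {g : FreeGroup ℕ} : g ∈ RR ↔ ∀ F : ℕ → GG, Fac F → FreeGroup.lift F g ∈ HH := Iff.rfl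

lemma SG_le_RR : SG ≤ RR := fun _ hg F _ => hg F

lemma lift_comp (F : ℕ → GG) (φ : FreeGroup ℕ →* FreeGroup ℕ) (g : FreeGroup ℕ) :
    FreeGroup.lift F (φ g) = FreeGroup.lift (fun x => FreeGroup.lift F (φ (FreeGroup.of x))) g := by
  have h : (FreeGroup.lift F).comp φ = FreeGroup.lift (fun x => FreeGroup.lift F (φ (FreeGroup.of x))) := by
    apply FreeGroup.ext_hom
    intro x
    rw [FreeGroup.lift_apply_of]; rfl
  exact DFunLike.congr_fun h g

lemma RR_map {g : FreeGroup ℕ} (hg : g ∈ RR) (θ : FreeGroup ℕ →* FreeGroup ℕ) : θ g ∈ RR := by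
  intro F hF
  rw [lift_comp]
  apply hg
  obtain ⟨φ, ψ, h⟩ := hF
  refine ⟨φ.comp θ, ψ, fun x => ?_⟩
  have : FreeGroup.lift F = ψ.comp φ := by
    apply FreeGroup.ext_hom
    intro x
    rw [FreeGroup.lift_apply_of, h]; rfl
  rw [this]; rfl

lemma Fac_of {F : ℕ → GG} (G' : Fin 5 → GG) (h : ∀ x, F x = 1 ∨ ∃ i, F x = G' i) : Fac F := by
  have h' : ∀ x, ∃ w : FreeGroup (Fin 5), F x = FreeGroup.lift G' w := by
    intro x
    rcases h x with h1 | ⟨i, h1⟩
    · exact ⟨1, by rw [map_one]; exact h1⟩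
    · exact ⟨FreeGroup.of i, by rw [FreeGroup.lift_apply_of]; exact h1⟩
  choose w hw using h'
  exact ⟨FreeGroup.lift w, FreeGroup.lift G', fun x => by rw [FreeGroup.lift_apply_of]; exact hw x⟩

/-- linear part as a homomorphism -/
def linP : GG →* Multiplicative V6 := (MonoidHom.snd U (Multiplicative V6)).comp GG.subtype

lemma linP_span (ψ : FreeGroup (Fin 5) →* GG) (w : FreeGroup (Fin 5)) :
    Multiplicative.toAdd (linP (ψ w)) ∈
      Submodule.span (ZMod 3) (Set.range fun i => Multiplicative.toAdd (linP (ψ (FreeGroup.of i)))) := by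
  induction w using FreeGroup.induction_on with
  | C1 => rw [map_one, map_one]; exact Submodule.zero_mem _
  | of i => exact Submodule.subset_span ⟨i, rfl⟩
  | inv_of i ih => rw [map_inv, map_inv]; exact Submodule.neg_mem _ ih
  | mul a b iha ihb => rw [map_mul, map_mul]; exact Submodule.add_mem _ iha ihb

lemma HH_iff {F : ℕ → GG} {g : FreeGroup ℕ} : FreeGroup.lift F g ∈ HH ↔
    ((FreeGroup.lift (fU F) g : U) : Mat) - 1 ∈ NN 6 ∧
    Phi (ent (((FreeGroup.lift (fU F) g : U) : Mat) - 1) 0 6) = 0 := by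
  have h : prU (FreeGroup.lift F g) = FreeGroup.lift (fU F) g := prU_lift F g
  constructor
  · intro h1
    have h2 : ((prU (FreeGroup.lift F g) : U) : Mat) - 1 ∈ NN 6 ∧
      Phi (ent (((prU (FreeGroup.lift F g) : U) : Mat) - 1) 0 6) = 0 := h1
    rwa [h] at h2
  · intro h1
    change ((prU (FreeGroup.lift F g) : U) : Mat) - 1 ∈ NN 6 ∧
      Phi (ent (((prU (FreeGroup.lift F g) : U) : Mat) - 1) 0 6) = 0
    rwa [h]

lemma val_Psi {g : FreeGroup ℕ} {K : (ℕ → ℕ) → ℤ} (h : Val g K) (F : ℕ → GG) :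
    FreeGroup.lift F g ∈ HH ↔
      Psi (fun τ => ((K (et τ) : ℤ) : ZMod 3)) (fun x : Fin 6 => vF F x) = 0 := by
  rw [HH_iff, Psi_apply, (h F).2]
  constructor
  · exact fun h1 => h1.2
  · exact fun h1 => ⟨(h F).1, h1⟩

lemma wrd_mem_RR : wrd ∈ RR := by
  intro F hF
  rw [val_Psi val_wrd]
  obtain ⟨φ, ψ, h⟩ := hF
  apply det_zero _ (fun i => Multiplicative.toAdd (linP (ψ (FreeGroup.of i))))
  intro x
  have : vF F x = Multiplicative.toAdd (linP (ψ (φ (FreeGroup.of (x : ℕ))))) := by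
    rw [← h]; rfl
  rw [this]
  exact linP_span ψ _

lemma wrd_not_mem : wrd ∉ SG := by
  intro h
  have h1 := h (fun x => if hx : x < 6 then secG (Pi.single ⟨x, hx⟩ 1) else 1)
  rw [val_Psi val_wrd] at h1
  have e : (fun x : Fin 6 => vF (fun x => if hx : x < 6 then secG (Pi.single ⟨x, hx⟩ 1) else 1) x) =
      fun x => Pi.single ((1 : Equiv.Perm (Fin 6)) x) 1 := by
    funext x
    simp only [vF, x.2, dif_pos]
    rfl
  rw [e, Psi_basis] at h1
  revert h1
  simp only [sg, Equiv.Perm.sign_one]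
  decide

end Pool.Agent.Helper429
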