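import Mathlib
import Pool.Agent.Helper429.Alt

set_option autoImplicit false

namespace Pool.Agent.Helper429

open scoped commutatorElement

/-- the endomorphism keeping the letters in `T` and killing the others -/
def keep (T : Finset ℕ) : FreeGroup ℕ →* FreeGroup ℕ :=
  FreeGroup.lift (fun i => if i ∈ T then FreeGroup.of i else 1)

lemma keep_of_mem {T : Finset ℕ} {x : ℕ} (h : x ∈ T) : keep T (FreeGroup.of x) = FreeGroup.of x := by
  simp [keep, h]

lemma keep_of_not_mem {T : Finset ℕ} {x : ℕ} (h : x ∉ T) : keep T (FreeGroup.of x) = 1 := by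
  simp [keep, h]

lemma kill_kill (j : ℕ) (g : FreeGroup ℕ) : kill j (kill j g) = kill j g := by
  have : (kill j).comp (kill j) = kill j := by
    apply FreeGroup.ext_hom
    intro x
    rw [MonoidHom.comp_apply]
    by_cases hx : x = j
    · subst hx; rw [kill_of_self, map_one]
    · rw [kill_of_ne hx, kill_of_ne hx]
  exact DFunLike.congr_fun this g

lemma kill_comm (i j : ℕ) (g : FreeGroup ℕ) : kill i (kill j g) = kill j (kill i g) := by
  have : (kill i).comp (kill j) = (kill j).comp (kill i) := by
    apply FreeGroup.ext_hom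
    intro x
    rw [MonoidHom.comp_apply, MonoidHom.comp_apply]
    by_cases hx : x = i
    · subst hx
      rw [kill_of_self, map_one]
      by_cases hx' : x = j
      · subst hx'; rw [kill_of_self, map_one]
      · rw [kill_of_ne hx', kill_of_self]
    · rw [kill_of_ne hx]
      by_cases hx' : x = j
      · subst hx'; rw [kill_of_self, map_one]
      · rw [kill_of_ne hx', kill_of_ne hx]
  exact DFunLike.congr_fun this g

lemma keep_kill (T : Finset ℕ) (j : ℕ) (g : FreeGroup ℕ) :
    keep T (kill j g) = kill j (keep T g) := by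
  have : (keep T).comp (kill j) = (kill j).comp (keep T) := by
    apply FreeGroup.ext_hom
    intro x
    rw [MonoidHom.comp_apply, MonoidHom.comp_apply]
    by_cases hx : x ∈ T
    · rw [keep_of_mem hx]
      by_cases hx' : x = j
      · subst hx'; rw [kill_of_self, map_one]
      · rw [kill_of_ne hx', keep_of_mem hx]
    · rw [keep_of_not_mem hx, map_one]
      by_cases hx' : x = j
      · subst hx'; rw [kill_of_self, map_one]
      · rw [kill_of_ne hx', keep_of_not_mem hx]
  exact DFunLike.congr_fun this g

lemma keep_erase (T : Finset ℕ) (j : ℕ) (g : FreeGroup ℕ) :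
    keep (T.erase j) g = kill j (keep T g) := by
  have : keep (T.erase j) = (kill j).comp (keep T) := by
    apply FreeGroup.ext_hom
    intro x
    rw [MonoidHom.comp_apply]
    by_cases hx : x ∈ T
    · rw [keep_of_mem hx]
      by_cases hx' : x = j
      · subst hx'; rw [kill_of_self, keep_of_not_mem (Finset.notMem_erase x T)]
      · rw [kill_of_ne hx', keep_of_mem (Finset.mem_erase.2 ⟨hx', hx⟩)]
    · rw [keep_of_not_mem hx, map_one, keep_of_not_mem (fun h => hx (Finset.mem_of_mem_erase h))]
  exact DFunLike.congr_fun this g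

lemma lift_keep {G : Type*} [Group G] (f : ℕ → G) (T : Finset ℕ) (g : FreeGroup ℕ) :
    FreeGroup.lift f (keep T g) = FreeGroup.lift (fun x => if x ∈ T then f x else 1) g := by
  have : (FreeGroup.lift f).comp (keep T) = FreeGroup.lift (fun x => if x ∈ T then f x else 1) := by
    apply FreeGroup.ext_hom
    intro x
    by_cases hx : x ∈ T <;> simp [keep, hx]
  exact DFunLike.congr_fun this g

/-- renaming by an arbitrary function -/
def rnm (t : ℕ → ℕ) : FreeGroup ℕ →* FreeGroup ℕ := FreeGroup.lift (fun x => FreeGroup.of (t x))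

lemma rnm_rnm (s t : ℕ → ℕ) (T : Finset ℕ) (h : ∀ x ∈ T, t (s x) = x) (g : FreeGroup ℕ)
    (hg : keep T g = g) : rnm t (rnm s g) = g := by
  have h1 : ((rnm t).comp (rnm s)).comp (keep T) = keep T := by
    apply FreeGroup.ext_hom
    intro x
    by_cases hx : x ∈ T
    · simp [keep, rnm, hx, h x hx]
    · simp [keep, rnm, hx]
  have h2 := DFunLike.congr_fun h1 g
  simp only [MonoidHom.comp_apply, hg] at h2
  exact h2

lemma X.rnm {T : Finset ℕ} {g : FreeGroup ℕ} (h : X T g) (s : ℕ → ℕ) :
    X (T.image s) (rnm s g) := by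
  induction h with
  | triv g => rw [Finset.image_empty]; exact X.triv _
  | gen i =>
    rw [Finset.image_singleton]
    have : Helper429.rnm s (FreeGroup.of i) = FreeGroup.of (s i) := by simp [Helper429.rnm]
    rw [this]
    exact X.gen _
  | one T => rw [map_one]; exact X.one _
  | mul _ _ iha ihb => rw [map_mul]; exact X.mul iha ihb
  | inv _ iha => rw [map_inv]; exact X.inv iha
  | comm _ _ iha ihb => rw [map_commutatorElement, Finset.image_union]; exact X.comm iha ihb

lemma cent_map {g : FreeGroup ℕ} (hg : g ∈ cent) (hk : keep (Finset.range 6) g = g)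
    (φ : FreeGroup ℕ →* FreeGroup ℕ) : φ g ∈ cent := by
  intro x
  have h1 : ⁅g, FreeGroup.of 6⁆ ∈ SC := hg _
  let θ : FreeGroup ℕ →* FreeGroup ℕ :=
    FreeGroup.lift (fun i => if i < 6 then φ (FreeGroup.of i) else x)
  have h2 := SC_map h1 θ
  rw [map_commutatorElement] at h2
  have h3 : θ (FreeGroup.of 6) = x := by simp [θ]
  have h4 : θ g = φ g := by
    have h5 : θ.comp (keep (Finset.range 6)) = φ.comp (keep (Finset.range 6)) := by
      apply FreeGroup.ext_hom
      intro x
      by_cases hx : x < 6 <;> simp [keep, θ, hx]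
    have h6 := DFunLike.congr_fun h5 g
    simp only [MonoidHom.comp_apply, hk] at h6
    exact h6
  rwa [h3, h4] at h2

lemma keep_wrd : keep (Finset.range 6) wrd = wrd := by
  have h0 : ∀ i, i < 6 → keep (Finset.range 6) (FreeGroup.of i) = FreeGroup.of i := by
    intro i hi
    simp [keep, hi]
  unfold wrd
  rw [map_commutatorElement, map_commutatorElement, map_commutatorElement, map_commutatorElement,
    map_commutatorElement, h0 0 (by norm_num), h0 1 (by norm_num), h0 2 (by norm_num),
    h0 3 (by norm_num), h0 4 (by norm_num), h0 5 (by norm_num)]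

/-- few letters -/
lemma small_case {T : Finset ℕ} (hT : T.card ≤ 5) {r : FreeGroup ℕ} (hr : r ∈ RR)
    (hk : keep T r = r) : r ∈ SG := by
  intro F
  rw [← hk, lift_keep]
  apply hr
  apply Fac_of (fun i : Fin 5 => F (T.toList.getD i 0))
  intro x
  by_cases hx : x ∈ T
  · right
    have h1 : x ∈ T.toList := Finset.mem_toList.2 hx
    obtain ⟨k, hk, hk'⟩ := List.getElem_of_mem h1
    have h2 : k < 5 := by
      rw [Finset.length_toList] at hk
      omega
    refine ⟨⟨k, h2⟩, ?_⟩
    simp only [hx, if_true]
    rw [List.getD_eq_getElem _ _ hk, hk']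
  · left
    simp [hx]

/-- many letters -/
lemma big_case {T : Finset ℕ} (hT : 7 ≤ T.card) {r : FreeGroup ℕ} (hX : X T r) : r ∈ SG := by
  rw [mem_SG']
  intro F
  have h := hX.mem_NN (fU F) (fU_uni F)
  have h0 := NN_seven hT h
  rw [h0]
  exact ⟨(NN 6).zero_mem, by rw [ent_zero, Phi_zero]⟩

/-- the critical case -/
lemma mid_case {r : FreeGroup ℕ} (hr : r ∈ RR) (hX : X (Finset.range 6) r) :
    ∃ n : ℤ, r * wrd ^ n ∈ SG := by
  obtain ⟨E, hE, hE2⟩ := hX.rep ⟨0, by simp⟩
  rw [Finset.card_range] at hE
  have hok : ∀ q ∈ E, q.2.Nodup ∧ ∀ x ∈ q.2, x < 6 := by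
    intro q hq
    refine ⟨(hE2 q hq).1, fun x hx => ?_⟩
    have h1 : x ∈ q.2.toFinset := List.mem_toFinset.2 hx
    rw [(hE2 q hq).2] at h1
    exact Finset.mem_range.1 h1
  have hval := hE.val hok
  have hconst := kappa_const (fun τ => ((KE E (et τ) : ℤ) : ZMod 3)) (by
    intro v a b hab hne
    have h1 : Fac (fun x => if hx : x < 6 then secG (v ⟨x, hx⟩) else 1) := by
      apply Fac_of (fun i : Fin 5 => secG (v (b.succAbove i)))
      intro x
      by_cases hx : x < 6
      · right
        simp only [hx, dif_pos]
        by_cases hxb : (⟨x, hx⟩ : Fin 6) = b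
        · obtain ⟨y, hy⟩ := Fin.exists_succAbove_eq hne
          refine ⟨y, ?_⟩
          rw [hy, hxb, hab]
        · obtain ⟨y, hy⟩ := Fin.exists_succAbove_eq hxb
          refine ⟨y, ?_⟩
          rw [hy]
      · left
        simp [hx]
    have h2 := hr _ h1
    rw [val_Psi hval] at h2
    have e : (fun x : Fin 6 => vF (fun x => if hx : x < 6 then secG (v ⟨x, hx⟩) else 1) x) = v := by
      funext x
      simp only [vF, x.2, dif_pos]
      rfl
    rw [e] at h2
    exact h2)
  refine ⟨KE E (et 1), ?_⟩
  refine (hval.mul (val_wrd.zpow (KE E (et 1)))).mem (fun τ => ?_)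
  have h1 : ((KE E (et τ) : ℤ) : ZMod 3) = ((KE E (et 1) : ℤ) : ZMod 3) := hconst τ
  push_cast
  rw [h1]
  have h3 : (3 : ZMod 3) = 0 := by decide
  have : ((KE E (et 1) : ℤ) : ZMod 3) + ((KE E (et 1) : ℤ) : ZMod 3) * 2 =
      3 * ((KE E (et 1) : ℤ) : ZMod 3) := by ring
  rw [this, h3, zero_mul]

lemma six_case {T : Finset ℕ} (hT : T.card = 6) {r : FreeGroup ℕ} (hr : r ∈ RR)
    (hk : keep T r = r) (hX : X T r) : r ∈ cent := by
  have hlen : T.toList.length = 6 := by rw [Finset.length_toList, hT]
  have hnd : T.toList.Nodup := Finset.nodup_toList T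
  let s : ℕ → ℕ := fun x => T.toList.idxOf x
  let t : ℕ → ℕ := fun x => T.toList.getD x 0
  have hts : ∀ x ∈ T, t (s x) = x := by
    intro x hx
    have h1 : T.toList.idxOf x < T.toList.length :=
      List.idxOf_lt_length_iff.2 (Finset.mem_toList.2 hx)
    simp only [s, t]
    rw [List.getD_eq_getElem _ _ h1]
    exact List.getElem_idxOf h1
  have himg : T.image s = Finset.range 6 := by
    apply Finset.eq_of_subset_of_card_le
    · intro y hy
      obtain ⟨x, hx, rfl⟩ := Finset.mem_image.1 hy
      rw [Finset.mem_range, ← hlen]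
      exact List.idxOf_lt_length_iff.2 (Finset.mem_toList.2 hx)
    · rw [Finset.card_range, Finset.card_image_of_injOn, hT]
      intro a ha b hb hab
      rw [← hts a ha, ← hts b hb, hab]
  have hX' := hX.rnm s
  rw [himg] at hX'
  obtain ⟨n, hn⟩ := mid_case (RR_map hr (rnm s)) hX'
  have h1 := SG_map hn (rnm t)
  rw [map_mul, map_zpow, rnm_rnm s t T hts r hk] at h1
  have h2 : rnm t wrd ∈ cent := cent_map wrd_cent keep_wrd _
  have h3 := cent.mul_mem (SG_le_cent h1) (cent.inv_mem (cent.zpow_mem h2 n))
  rwa [mul_inv_cancel_right] at h3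

lemma base_case {T : Finset ℕ} {r : FreeGroup ℕ} (hr : r ∈ RR) (hk : keep T r = r)
    (hkill : ∀ j ∈ T, kill j r = 1) : r ∈ cent := by
  have hX : X T r := X.of_kill T hkill
  rcases lt_trichotomy T.card 6 with h | h | h
  · exact SG_le_cent (small_case (by omega) hr hk)
  · exact six_case h hr hk hX
  · exact SG_le_cent (big_case (by omega) hX)

lemma induct (n : ℕ) : ∀ T : Finset ℕ, T.card = n → ∀ r ∈ RR, keep T r = r → r ∈ cent := by
  induction n using Nat.strong_induction_on with
  | _ n ih =>
    intro T hT
    have key : ∀ S : Finset ℕ, S ⊆ T → ∀ r ∈ RR, keep T r = r → (∀ j ∈ T \ S, kill j r = 1) →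
        r ∈ cent := by
      intro S
      induction S using Finset.induction_on with
      | empty =>
        intro _ r hr hk hkill
        exact base_case hr hk (fun j hj => hkill j (by simpa using hj))
      | insert j S hj ihS =>
        intro hS r hr hk hkill
        have hjT : j ∈ T := hS (Finset.mem_insert_self j S)
        have h1 : kill j r ∈ RR := RR_map hr _
        have h2 : kill j r ∈ cent := by
          apply ih (T.erase j).card (by rw [← hT]; exact Finset.card_erase_lt_of_mem hjT)
            (T.erase j) rfl _ h1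
          rw [keep_erase, keep_kill, hk, kill_kill]
        have h3 : (kill j r)⁻¹ * r ∈ cent := by
          apply ihS (fun x hx => hS (Finset.mem_insert_of_mem hx)) _
            (RR.mul_mem (RR.inv_mem h1) hr)
          · rw [map_mul, map_inv, keep_kill, hk]
          · intro i hi
            rw [map_mul, map_inv]
            by_cases hij : i = j
            · subst hij
              rw [kill_kill, inv_mul_cancel]
            · have h4 : kill i r = 1 := hkill i (by
                rw [Finset.mem_sdiff] at hi ⊢
                refine ⟨hi.1, fun hmem => ?_⟩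
                rcases Finset.mem_insert.1 hmem with h | h
                · exact hij h
                · exact hi.2 h)
              rw [kill_comm, h4, map_one, inv_one, mul_one]
        have h5 := cent.mul_mem h2 h3
        rwa [mul_inv_cancel_left] at h5
    intro r hr hk
    exact key T (Finset.Subset.refl T) r hr hk (by simp)

lemma exists_keep (g : FreeGroup ℕ) : ∃ T : Finset ℕ, ∀ T', T ⊆ T' → keep T' g = g := by
  induction g using FreeGroup.induction_on with
  | C1 => exact ⟨∅, fun T' _ => map_one _⟩
  | of i => exact ⟨{i}, fun T' h => by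
      have : i ∈ T' := h (Finset.mem_singleton_self i)
      simp [keep, this]⟩
  | inv_of i ih =>
    obtain ⟨T, hT⟩ := ih
    exact ⟨T, fun T' h => by rw [map_inv, hT T' h]⟩
  | mul a b iha ihb =>
    obtain ⟨T, hT⟩ := iha
    obtain ⟨S, hS⟩ := ihb
    exact ⟨T ∪ S, fun T' h => by
      rw [map_mul, hT T' (Finset.union_subset_left h), hS T' (Finset.union_subset_right h)]⟩

/-- laws on five generator tuples are central modulo the commutator subgroup -/
theorem RR_le_cent : RR ≤ cent := by
  intro r hr
  obtain ⟨T, hT⟩ := exists_keep r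
  exact induct T.card T rfl r hr (hT T (Finset.Subset.refl T))

end Pool.Agent.Helper429
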